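import Pool.Agent.Helper87.FF.Tree

/-! The axis of an automorphism without fixed vertices, via the map `nx` which moves a vertex one
step towards its image. -/

namespace Pool.Agent.Helper87.FF

open SimpleGraph

section Axis

variable {V : Type*} {Y : SimpleGraph V} {G : Type*} [Group G] [MulAction G V]

/-- If `a` has no fixed vertex and is not an inversion, there is an edge fixed by all
commutators of elements which commute with `a`. -/
theorem commutator_fixes_edge
    (hT : Y.IsTree)
    (hadj : ∀ (g : G) (v w : V), Y.Adj v w → Y.Adj (g • v) (g • w))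
    (hinv : ∀ (g : G) (v w : V), Y.Adj v w → ¬ (g • v = w ∧ g • w = v))
    (a : G) (hfree : ∀ v : V, a • v ≠ v) :
    ∃ v w : V, Y.Adj v w ∧ ∀ b₁ b₂ : G, a * b₁ = b₁ * a → a * b₂ = b₂ * a →
      (b₁ * b₂ * b₁⁻¹ * b₂⁻¹) • v = v ∧ (b₁ * b₂ * b₁⁻¹ * b₂⁻¹) • w = w := by
  classical
  have : Nonempty V := hT.connected.nonempty
  have hds := fun g u v => dist_smul hadj hT (V := V) g u v
  -- minimal displacement
  obtain ⟨v₀, hv₀⟩ : ∃ v₀ : V, ∀ v, Y.dist (a • v₀) v₀ ≤ Y.dist (a • v) v :=
    ⟨Function.argmin (fun v => Y.dist (a • v) v), fun v =>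
      Function.argmin_le (fun v => Y.dist (a • v) v) v⟩
  obtain ⟨l, hl⟩ : ∃ l, l = Y.dist (a • v₀) v₀ := ⟨_, rfl⟩
  have hl0 : 0 < l := by
    rw [hl]; exact hT.connected.pos_dist_of_ne (hfree v₀)
  rw [← hl] at hv₀
  choose nx nA nD using fun v => exists_closer hT (hfree v)
  -- equivariance
  have hcomm_smul : ∀ b : G, a * b = b * a → ∀ v : V, a • b • v = b • a • v := by
    intro b hb v
    rw [smul_smul, hb, mul_smul]
  have nE : ∀ b : G, a * b = b * a → ∀ v, nx (b • v) = b • nx v := by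
    intro b hb v
    refine closer_unique hT (u := a • b • v) (y := b • v) (nA _) (hadj b _ _ (nA v)) (nD _) ?_
    rw [hcomm_smul b hb, hds, hds, nD]
  have nEi : ∀ b : G, a * b = b * a → ∀ (n : ℕ) v, nx^[n] (b • v) = b • nx^[n] v := by
    intro b hb n
    induction n with
    | zero => intro v; rfl
    | succ n ih => intro v; rw [Function.iterate_succ_apply, nE b hb, ih,
        Function.iterate_succ_apply]
  have hLb : ∀ b : G, a * b = b * a → ∀ v, Y.dist (a • v) v = l → Y.dist (a • b • v) (b • v) = l := by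
    intro b hb v hv
    rw [hcomm_smul b hb, hds, hv]
  have adj_dist : ∀ {x y : V}, Y.Adj x y → Y.dist x y = 1 := fun h => dist_eq_one_iff_adj.2 h
  -- the axis is preserved
  have nL : ∀ v, Y.dist (a • v) v = l → Y.dist (a • nx v) (nx v) = l := by
    intro v hv
    apply le_antisymm _ (hv₀ _)
    have h1 : Y.dist (a • nx v) (nx v) ≤ Y.dist (a • nx v) (a • v) + Y.dist (a • v) (nx v) :=
      hT.connected.dist_triangle
    rw [hds, adj_dist (nA v)] at h1
    have := nD v
    omega
  have nLi : ∀ (n : ℕ) v, Y.dist (a • v) v = l → Y.dist (a • nx^[n] v) (nx^[n] v) = l := by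
    intro n
    induction n with
    | zero => intro v hv; exact hv
    | succ n ih => intro v hv; rw [Function.iterate_succ_apply]; exact ih _ (nL v hv)
  have dist_iter : ∀ (n : ℕ) v, Y.dist (nx^[n] v) v ≤ n := by
    intro n
    induction n with
    | zero => intro v; simp
    | succ n ih =>
      intro v
      rw [Function.iterate_succ_apply]
      have h1 : Y.dist (nx^[n] (nx v)) v ≤ Y.dist (nx^[n] (nx v)) (nx v) + Y.dist (nx v) v :=
        hT.connected.dist_triangle
      rw [adj_dist (nA v)] at h1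
      have := ih (nx v)
      omega
  have iter_dist : ∀ v, Y.dist (a • v) v = l → ∀ k, k ≤ l → Y.dist (a • v) (nx^[k] v) = l - k := by
    intro v hv k
    induction k with
    | zero => intro _; simpa using hv
    | succ k ih =>
      intro hk
      have ih' := ih (by omega)
      rw [Function.iterate_succ_apply']
      obtain ⟨x, hx⟩ : ∃ x, x = nx^[k] v := ⟨_, rfl⟩
      rw [← hx] at ih' ⊢
      have hne : a • v ≠ x := by
        intro h
        rw [h, dist_self] at ih'
        omega
      obtain ⟨z, hz1, hz2⟩ := exists_closer hT hne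
      have hxL : Y.dist (a • x) x = l := by rw [hx]; exact nLi k v hv
      have hxv : Y.dist x v ≤ k := by rw [hx]; exact dist_iter k v
      have h1 : Y.dist (a • x) z ≤ Y.dist (a • x) (a • v) + Y.dist (a • v) z :=
        hT.connected.dist_triangle
      rw [hds] at h1
      have h2 : Y.dist (a • x) x ≤ Y.dist (a • x) z + Y.dist z x := hT.connected.dist_triangle
      rw [adj_dist hz1] at h2
      have hzn : z = nx x := closer_unique hT (u := a • x) (y := x) hz1 (nA x) (by omega) (nD x)
      rw [← hzn]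
      omega
  have iter_l : ∀ v, Y.dist (a • v) v = l → nx^[l] v = a • v := by
    intro v hv
    have := iter_dist v hv l le_rfl
    rw [Nat.sub_self, hT.connected.dist_eq_zero_iff] at this
    exact this.symm
  have inj1 : ∀ v w, Y.dist (a • v) v = l → Y.dist (a • w) w = l → nx v = nx w → v = w := by
    intro v w hv hw h
    have h1 := iter_l v hv
    have h2 := iter_l w hw
    obtain ⟨m, rfl⟩ : ∃ m, l = m + 1 := ⟨l - 1, by omega⟩
    rw [Function.iterate_succ_apply] at h1 h2
    rw [h] at h1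
    have h3 : a • v = a • w := by rw [← h1, ← h2]
    exact smul_left_cancel a h3
  have injn : ∀ (n : ℕ) v w, Y.dist (a • v) v = l → Y.dist (a • w) w = l →
      nx^[n] v = nx^[n] w → v = w := by
    intro n
    induction n with
    | zero => intro v w _ _ h; exact h
    | succ n ih =>
      intro v w hv hw h
      rw [Function.iterate_succ_apply, Function.iterate_succ_apply] at h
      exact inj1 v w hv hw (ih _ _ (nL v hv) (nL w hw) h)
  -- no backtracking
  have nn : ∀ v, Y.dist (a • v) v = l → nx (nx v) ≠ v := by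
    intro v hv h
    by_cases hl2 : 2 ≤ l
    · have h1 := iter_dist v hv 2 hl2
      have h2 : nx^[2] v = v := h
      rw [h2, hv] at h1
      omega
    · have hl1 : l = 1 := by omega
      subst hl1
      have h1 : nx v = a • v := iter_l v hv
      have h2 : nx (nx v) = a • (nx v) := iter_l (nx v) (nL v hv)
      rw [h, h1] at h2
      have h3 : Y.Adj v (a • v) := by
        have := (nA v).symm
        rwa [h1] at this
      exact hinv a v (a • v) h3 ⟨rfl, h2.symm⟩
  -- any two points of the axis are in the same orbit of `nx`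
  have orb : ∀ u v, Y.dist (a • u) u = l → Y.dist (a • v) v = l →
      ∃ n m : ℕ, nx^[n] u = nx^[m] v := by
    intro u v hu hv
    obtain ⟨⟨n, m⟩, hnm⟩ : ∃ p : ℕ × ℕ, ∀ q : ℕ × ℕ,
        Y.dist (nx^[p.1] u) (nx^[p.2] v) ≤ Y.dist (nx^[q.1] u) (nx^[q.2] v) :=
      ⟨Function.argmin (fun p : ℕ × ℕ => Y.dist (nx^[p.1] u) (nx^[p.2] v)), fun q =>
        Function.argmin_le (fun p : ℕ × ℕ => Y.dist (nx^[p.1] u) (nx^[p.2] v)) q⟩
    refine ⟨n, m, ?_⟩
    by_contra hne
    obtain ⟨u', hu'⟩ : ∃ u', u' = nx^[n] u := ⟨_, rfl⟩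
    obtain ⟨v', hv'⟩ : ∃ v', v' = nx^[m] v := ⟨_, rfl⟩
    have hu'L : Y.dist (a • u') u' = l := by rw [hu']; exact nLi n u hu
    have hv'L : Y.dist (a • v') v' = l := by rw [hv']; exact nLi m v hv
    have hmin : ∀ i j : ℕ, Y.dist u' v' ≤ Y.dist (nx^[i] u') (nx^[j] v') := by
      intro i j
      have := hnm (i + n, j + m)
      simp only [Function.iterate_add_apply] at this
      rw [hu', hv']
      exact this
    have hne' : u' ≠ v' := by rw [hu', hv']; exact hne
    obtain ⟨k, hk⟩ : ∃ k, k = Y.dist u' v' := ⟨_, rfl⟩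
    rw [← hk] at hmin
    have e : ∀ i, i + 1 ≤ l → Y.dist (a • u') (nx^[l - i] v') = k + i ∧
        Y.dist (a • u') (nx^[l - (i + 1)] v') = k + (i + 1) := by
      intro i
      induction i with
      | zero =>
        intro h1
        have h2 : nx^[l] v' = a • v' := iter_l v' hv'L
        have h3 : nx^[l] u' = a • u' := iter_l u' hu'L
        refine ⟨by rw [Nat.sub_zero, h2, hds, ← hk, Nat.add_zero], ?_⟩
        have h4 := hmin l (l - 1)
        rw [h3] at h4
        have h5 : Y.Adj (nx^[l - 1] v') (nx^[l] v') := by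
          obtain ⟨m, rfl⟩ : ∃ m, l = m + 1 := ⟨l - 1, by omega⟩
          rw [Function.iterate_succ_apply' nx m]
          exact (nA _).symm
        rcases hT.dist_eq_dist_add_one_of_adj (a • u') h5 with h | h
        · rw [zero_add, h, h2, hds, ← hk]
        · rw [h2, hds, ← hk] at h
          omega
      | succ i ih =>
        intro h1
        obtain ⟨ih1, ih2⟩ := ih (by omega)
        refine ⟨ih2, ?_⟩
        have e1 : l - i = (l - (i + 1 + 1)) + 1 + 1 := by omega
        have e2 : l - (i + 1) = (l - (i + 1 + 1)) + 1 := by omega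
        obtain ⟨j, hj⟩ : ∃ j, j = l - (i + 1 + 1) := ⟨_, rfl⟩
        rw [← hj] at e1 e2 ⊢
        rw [e1, Function.iterate_succ_apply', Function.iterate_succ_apply'] at ih1
        rw [e2, Function.iterate_succ_apply'] at ih2
        have hx : Y.dist (a • nx^[j] v') (nx^[j] v') = l := nLi j v' hv'L
        have := dist_next hT (u := a • u') (x := nx (nx (nx^[j] v'))) (y := nx (nx^[j] v'))
          (z := nx^[j] v') (nA _) (nA _) (nn _ hx) (by omega)
        omega
    obtain ⟨z, hz1, hz2⟩ := exists_closer hT hne'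
    obtain ⟨e1, e2⟩ := e (l - 1) (by omega)
    have e3 : l - (l - 1) = 1 := by omega
    have e4 : l - (l - 1 + 1) = 0 := by omega
    rw [e3] at e1
    rw [e4] at e2
    simp only [Function.iterate_one, Function.iterate_zero, id] at e1 e2
    have h1 : Y.dist (a • u') z ≤ Y.dist (a • u') u' + Y.dist u' z := hT.connected.dist_triangle
    have h2 : Y.dist (a • u') v' ≤ Y.dist (a • u') z + Y.dist z v' := hT.connected.dist_triangle
    rw [adj_dist hz1] at h2
    have hzn : z = nx v' := closer_unique hT (u := a • u') (y := v') hz1 (nA v') (by omega)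
      (by omega)
    have h3 := hmin 0 1
    simp only [Function.iterate_one, Function.iterate_zero, id] at h3
    rw [← hzn] at h3
    omega
  -- commutators fix the axis
  have hcom : ∀ b₁ b₂ : G, a * b₁ = b₁ * a → a * b₂ = b₂ * a → ∀ v, Y.dist (a • v) v = l →
      b₁ • b₂ • v = b₂ • b₁ • v := by
    intro b₁ b₂ h₁ h₂ v hv
    obtain ⟨n₁, m₁, e₁⟩ := orb (b₁ • v) v (hLb b₁ h₁ v hv) hv
    obtain ⟨n₂, m₂, e₂⟩ := orb (b₂ • v) v (hLb b₂ h₂ v hv) hv
    apply injn (n₁ + n₂) _ _ (hLb b₁ h₁ _ (hLb b₂ h₂ v hv)) (hLb b₂ h₂ _ (hLb b₁ h₁ v hv))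
    have c1 : nx^[n₁ + n₂] (b₁ • b₂ • v) = nx^[m₁ + m₂] v := by
      rw [Function.iterate_add_apply, nEi b₁ h₁, e₂, ← nEi b₁ h₁, ← Function.iterate_add_apply,
        Nat.add_comm n₁ m₂, Function.iterate_add_apply, e₁, ← Function.iterate_add_apply,
        Nat.add_comm m₂ m₁]
    have c2 : nx^[n₁ + n₂] (b₂ • b₁ • v) = nx^[m₁ + m₂] v := by
      rw [Nat.add_comm n₁ n₂, Function.iterate_add_apply, nEi b₂ h₂, e₁, ← nEi b₂ h₂,
        ← Function.iterate_add_apply,
        Nat.add_comm n₂ m₁, Function.iterate_add_apply, e₂, ← Function.iterate_add_apply]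
    rw [c1, c2]
  have hfix : ∀ b₁ b₂ : G, a * b₁ = b₁ * a → a * b₂ = b₂ * a → ∀ v, Y.dist (a • v) v = l →
      (b₁ * b₂ * b₁⁻¹ * b₂⁻¹) • v = v := by
    intro b₁ b₂ h₁ h₂ v hv
    have h₁' : a * b₁⁻¹ = b₁⁻¹ * a := by
      rw [eq_inv_mul_iff_mul_eq, ← mul_assoc, ← h₁, mul_assoc, mul_inv_cancel, mul_one]
    have h₂' : a * b₂⁻¹ = b₂⁻¹ * a := by
      rw [eq_inv_mul_iff_mul_eq, ← mul_assoc, ← h₂, mul_assoc, mul_inv_cancel, mul_one]
    have := hcom b₁ b₂ h₁ h₂ (b₁⁻¹ • b₂⁻¹ • v) (hLb _ h₁' _ (hLb _ h₂' v hv))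
    simp only [mul_smul]
    rw [this]
    simp
  refine ⟨v₀, nx v₀, (nA v₀).symm, fun b₁ b₂ h₁ h₂ => ⟨hfix b₁ b₂ h₁ h₂ v₀ hl.symm,
    hfix b₁ b₂ h₁ h₂ _ (nL v₀ hl.symm)⟩⟩

end Axis

end Pool.Agent.Helper87.FF
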