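import Mathlib

namespace Pool.Agent.Helper87.FF

/-- `C` is virtually infinite cyclic (two-ended). -/
def TwoEnded (C : Type) [Group C] : Prop :=
  ∃ z : C, orderOf z = 0 ∧ (Subgroup.zpowers z).FiniteIndex

/-- `G` splits over a two-ended subgroup: it acts on a simplicial tree without inversions, without
a global fixed vertex, with one orbit of edges, and with two-ended edge stabilisers. -/
def SplitsOverTwoEnded (G : Type) [Group G] : Prop :=
  ∃ (V : Type) (Y : SimpleGraph V) (_ : MulAction G V),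
    Y.IsTree ∧
    (∀ (g : G) (v w : V), Y.Adj v w → Y.Adj (g • v) (g • w)) ∧
    (∀ (g : G) (v w : V), Y.Adj v w → ¬ (g • v = w ∧ g • w = v)) ∧
    (¬ ∃ v : V, ∀ g : G, g • v = v) ∧
    (∀ v w v' w' : V, Y.Adj v w → Y.Adj v' w' →
      ∃ g : G, (g • v = v' ∧ g • w = w') ∨ (g • v = w' ∧ g • w = v')) ∧
    (∀ v w : V, Y.Adj v w →
      TwoEnded ↥(MulAction.stabilizer G v ⊓ MulAction.stabilizer G w))

end Pool.Agent.Helper87.FF
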