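import Mathlib
import Pool.Agent.Helper68.BB.That

/-! A compactified tree with a finite edge colouring embeds in a Euclidean space. -/

namespace Pool.Agent.Helper87.FF

open Set Filter Topology Pool.Agent.Helper68.BB Pool.Agent.Helper68.BB.RTree

section Zeta

variable {V : Type} {T : RTree V}

/-- The fraction of the edge `p v - v` covered by `x`. -/
noncomputable def zeta (T : RTree V) (v : V) (x : T.TH) : ℝ :=
  (max (x.1 v) (E (T.b v - 1)) - E (T.b v - 1)) / (E (T.b v) - E (T.b v - 1))

theorem Egap (n : ℤ) : 0 < E n - E (n - 1) := by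
  rw [sub_pos, E_lt]; omega

theorem zeta_nonneg (v : V) (x : T.TH) : 0 ≤ zeta T v x :=
  div_nonneg (sub_nonneg.2 (le_max_right _ _)) (Egap _).le

theorem x_le_E (v : V) (x : T.TH) : x.1 v ≤ E (T.b v) := by
  rw [← T.c_self]; exact le_c x v

theorem zeta_le_one (v : V) (x : T.TH) : zeta T v x ≤ 1 := by
  unfold zeta
  rw [div_le_one (Egap _)]
  have h1 := x_le_E v x
  have h2 := Egap (T.b v)
  have : max (x.1 v) (E (T.b v - 1)) ≤ E (T.b v) := max_le h1 (by linarith)
  linarith

theorem act_of_zeta_pos {v : V} {x : T.TH} (h : 0 < zeta T v x) : E (T.b v - 1) < x.1 v := by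
  by_contra hcon
  push Not at hcon
  unfold zeta at h
  rw [max_eq_right hcon, sub_self, zero_div] at h
  exact lt_irrefl _ h

theorem zeta_pos_of_act {v : V} {x : T.TH} (h : E (T.b v - 1) < x.1 v) : 0 < zeta T v x := by
  unfold zeta
  rw [max_eq_left h.le]
  exact div_pos (sub_pos.2 h) (Egap _)

theorem zeta_eq_one {v : V} {x : T.TH} (h : x.1 v = E (T.b v)) : zeta T v x = 1 := by
  unfold zeta
  have h2 := Egap (T.b v)
  rw [h, max_eq_left (by linarith), div_self h2.ne']

theorem eq_of_zeta_one {v : V} {x : T.TH} (h : zeta T v x = 1) : x.1 v = E (T.b v) := by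
  have h1 : E (T.b v - 1) < x.1 v := act_of_zeta_pos (by rw [h]; exact one_pos)
  unfold zeta at h
  rw [max_eq_left h1.le, div_eq_one_iff_eq (Egap _).ne'] at h
  linarith

theorem zeta_lt {v : V} {x y : T.TH} (h1 : x.1 v < y.1 v) (h2 : E (T.b v - 1) < y.1 v) :
    zeta T v x < zeta T v y := by
  unfold zeta
  apply div_lt_div_of_pos_right _ (Egap _)
  have : max (x.1 v) (E (T.b v - 1)) < max (y.1 v) (E (T.b v - 1)) := by
    rw [max_eq_left h2.le]
    exact max_lt h1 h2
  linarith

theorem continuous_zeta (v : V) : Continuous (zeta T v) := by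
  unfold zeta
  exact (((continuous_coord v).max continuous_const).sub continuous_const).div_const _

theorem act_of_full {v : V} {x : T.TH} (h : x.1 v = E (T.b v)) : E (T.b v - 1) < x.1 v := by
  rw [h, E_lt]; omega

theorem act_unique {u v : V} {x : T.TH} (hu : E (T.b u - 1) < x.1 u) (hv : E (T.b v - 1) < x.1 v)
    (hb : T.b u = T.b v) : u = v := by
  have h1 := min_le_c x u v
  have h2 : E (T.b u - 1) < E (T.m u v) := lt_of_lt_of_le (lt_min hu (by rw [hb]; exact hv)) h1
  rw [E_lt] at h2
  have h3 : T.b u ≤ T.m u v := by omega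
  rw [T.le_m_iff le_rfl hb.le, anc_self, hb, anc_self] at h3
  exact h3

theorem act_anc {u : V} {x : T.TH} (hu : E (T.b u - 1) < x.1 u) {n : ℤ} (hn : n ≤ T.b u - 1) :
    x.1 (T.anc u n) = E n := by
  have hn' : n ≤ T.b u := by omega
  have h1 := min_c_le' x u (T.anc u n)
  have h4 : T.c u (T.anc u n) = E n := by
    rw [T.c_comm, c, T.m_anc hn', T.m_self, min_eq_left hn']
  rw [h4] at h1
  have h2 : E n ≤ x.1 u := le_trans (E_le.2 hn) hu.le
  rw [min_eq_right h2] at h1
  apply le_antisymm _ h1
  have := x_le_E (T.anc u n) x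
  rwa [T.b_anc hn'] at this

theorem act_p {u : V} {x : T.TH} (hu : E (T.b u - 1) < x.1 u) :
    x.1 (T.p u) = E (T.b (T.p u)) := by
  rw [← T.anc_pred, act_anc hu le_rfl, T.b_anc (by omega)]

/-- the points agree below a common full vertex -/
theorem agree_below {v u : V} {x y : T.TH} (hx : x.1 v = E (T.b v)) (hy : y.1 v = E (T.b v))
    (hu : T.b u ≤ T.b v) : x.1 u = y.1 u := by
  have key : ∀ z : T.TH, z.1 v = E (T.b v) → z.1 u = T.c v u := by
    intro z hz
    apply le_antisymm
    · have h1 := min_le_c z v u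
      rw [hz, min_eq_right ((x_le_E u z).trans (E_le.2 hu))] at h1
      exact h1
    · have h1 := min_c_le' z v u
      rw [hz, min_eq_right] at h1
      · exact h1
      · exact E_le.2 (T.m_le_left v u)
  rw [key x hx, key y hy]

theorem ray_value (n : ℕ) (x : T.TH) :
    x.1 (T.p^[n] T.o) = min (x.1 T.o) (E (T.b (T.p^[n] T.o))) := by
  have hb : T.b (T.p^[n] T.o) ≤ T.b T.o := by
    rw [T.b_iter]; omega
  have hanc : T.anc T.o (T.b (T.p^[n] T.o)) = T.p^[n] T.o := by
    rw [T.b_iter, anc]
    congr 1
    omega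
  set u := T.p^[n] T.o with hu
  have h4 : T.c T.o u = E (T.b u) := by
    rw [T.c_comm]
    conv_lhs => rw [← hanc]
    rw [c, T.m_anc hb, T.m_self, min_eq_left hb]
  apply le_antisymm
  · apply le_min _ (x_le_E u x)
    have h1 := min_c_le' x u T.o
    rw [T.c_comm, h4, min_eq_left (x_le_E u x)] at h1
    exact h1
  · have h1 := min_c_le' x T.o u
    rwa [h4] at h1

theorem exists_zeta_lt {x y : T.TH} {g : V} (h : x.1 g < y.1 g) : ∃ a, zeta T a x < zeta T a y := by
  obtain ⟨n, hn1, hn2⟩ := exists_level (lt_of_le_of_lt (nonneg x g) h) (lt_one y g)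
  obtain ⟨hb, hy⟩ := exists_anc hn1
  have hba : T.b (T.anc g n) = n := T.b_anc hb
  rw [min_eq_left hn2] at hy
  have hc : T.c (T.anc g n) g = E n := by
    rw [c, T.m_anc hb, T.m_self, min_eq_left hb]
  have h1 := min_c_le' x (T.anc g n) g
  have h2 := x_le_E (T.anc g n) x
  rw [hba] at h2
  rw [hc, min_eq_left h2] at h1
  refine ⟨T.anc g n, zeta_lt (by linarith) ?_⟩
  rw [hba]
  linarith

end Zeta

section Emb

variable {V : Type} (T : RTree V) {κ : Type} (col : V → κ) (w : V → ℝ)

/-- off the ray from the base vertex to the root end -/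
def Off (v : V) : Prop := ∀ n : ℕ, v ≠ T.p^[n] T.o

open Classical in
noncomputable def ff (j : κ) (x : T.TH) : ℝ :=
  ∑' v, (if Off T v ∧ col v = j then w v * zeta T v x else 0)

open Classical in
noncomputable def DD (N : ℤ) (x : T.TH) : ℝ :=
  ∑' v, (if Off T v ∧ N ≤ T.b v then w v * zeta T v x else 0)

variable {T w}

theorem ff_bound (hw0 : ∀ v, 0 < w v) (P : V → Prop) [DecidablePred P] (v : V) (x : T.TH) :
    ‖(if P v then w v * zeta T v x else 0)‖ ≤ w v := by
  split_ifs
  · rw [Real.norm_eq_abs, abs_of_nonneg (mul_nonneg (hw0 v).le (zeta_nonneg v x))]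
    exact mul_le_of_le_one_right (hw0 v).le (zeta_le_one v x)
  · simpa using (hw0 v).le

theorem ff_summable (hw0 : ∀ v, 0 < w v) (hws : Summable w) (P : V → Prop) [DecidablePred P]
    (x : T.TH) : Summable (fun v => if P v then w v * zeta T v x else 0) :=
  Summable.of_norm_bounded hws (fun v => ff_bound hw0 P v x)

theorem continuous_ff (hw0 : ∀ v, 0 < w v) (hws : Summable w) (j : κ) :
    Continuous (ff T col w j) := by
  classical
  unfold ff
  refine continuous_tsum (fun v => ?_) hws (fun v x => ff_bound hw0 (fun v => Off T v ∧ col v = j) v x)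
  by_cases h : Off T v ∧ col v = j
  · simp only [h, and_self, if_true]
    exact continuous_const.mul (continuous_zeta v)
  · simp only [h, if_false]
    exact continuous_const

theorem not_off {v : V} (h : ¬ Off T v) : ∃ n : ℕ, v = T.p^[n] T.o := by
  unfold Off at h
  push Not at h
  exact h

theorem zeta_ray {x y : T.TH} (hxy : x.1 T.o = y.1 T.o) {v : V} (h : ¬ Off T v) :
    zeta T v x = zeta T v y := by
  obtain ⟨n, rfl⟩ := not_off h
  unfold zeta
  rw [ray_value, ray_value, hxy]

theorem off_of_desc {k : ℕ} {u c : V} (h : T.p^[k] u = c) (hc : Off T c) : Off T u := by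
  intro n hn
  apply hc (k + n)
  rw [← h, hn, Function.iterate_add_apply]

theorem w_desc (hw : ∀ c, Off T c → w c ≤ w (T.p c) / 3) {c : V} (hc : Off T c) (k : ℕ) :
    ∀ u, T.p^[k] u = c → w u ≤ w c / 3 ^ k := by
  induction k with
  | zero => intro u hu; simp only [Function.iterate_zero, id] at hu; rw [hu]; simp
  | succ k ih =>
    intro u hu
    have h1 := hw u (off_of_desc hu hc)
    have h2 := ih (T.p u) (by rwa [Function.iterate_succ_apply] at hu)
    calc w u ≤ w (T.p u) / 3 := h1
      _ ≤ (w c / 3 ^ k) / 3 := by linarith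
      _ = w c / 3 ^ (k + 1) := by rw [div_div, pow_succ]

theorem desc_of_act {x : T.TH} {u c : V} (hu : E (T.b u - 1) < x.1 u) (hc : x.1 c = E (T.b c))
    (hb : T.b c + 1 ≤ T.b u) : T.anc u (T.b c) = c := by
  have h1 := act_anc hu (n := T.b c) (by omega)
  have h2 : T.b (T.anc u (T.b c)) = T.b c := T.b_anc (by omega)
  exact act_unique (act_of_full (by rw [h1, h2])) (act_of_full hc) h2

theorem DD_le (hw0 : ∀ v, 0 < w v) (hws : Summable w) (hw : ∀ c, Off T c → w c ≤ w (T.p c) / 3)
    {x : T.TH} {c : V} (hc : x.1 c = E (T.b c)) (hoff : Off T c) :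
    DD T w (T.b c + 1) x ≤ w c / 2 := by
  classical
  let U : Set V := {u | T.b c + 1 ≤ T.b u ∧ E (T.b u - 1) < x.1 u}
  have h1 : DD T w (T.b c + 1) x = ∑' u : U, w u * zeta T u x := by
    rw [tsum_subtype U (fun u => w u * zeta T u x)]
    unfold DD
    congr 1
    ext u
    by_cases hu : u ∈ U
    · rw [indicator_of_mem hu]
      have h2 : T.anc u (T.b c) = c := desc_of_act hu.2 hc hu.1
      rw [if_pos ⟨off_of_desc h2 hoff, hu.1⟩]
    · rw [indicator_of_notMem hu]
      split_ifs with h
      · have h2 : zeta T u x = 0 := by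
          by_contra hne
          exact hu ⟨h.2, act_of_zeta_pos (lt_of_le_of_ne (zeta_nonneg u x) (Ne.symm hne))⟩
        rw [h2, mul_zero]
      · rfl
  rw [h1]
  have hgeo : HasSum (fun k : ℕ => (w c / 3) * (1 / 3 : ℝ) ^ k) (w c / 2) := by
    have h2 := (hasSum_geometric_of_lt_one (r := (1 / 3 : ℝ)) (by norm_num) (by norm_num)).mul_left
      (w c / 3)
    have h3 : w c / 3 * (1 - 1 / 3)⁻¹ = w c / 2 := by
      rw [show (1 - 1 / 3 : ℝ)⁻¹ = 3 / 2 by norm_num]
      ring
    rwa [h3] at h2
  rw [← hgeo.tsum_eq]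
  have hsub : Summable (fun u : U => w u * zeta T u x) := by
    refine Summable.of_norm_bounded (hws.subtype U) (fun u => ?_)
    have := ff_bound hw0 (fun _ => True) u.1 x
    simpa using this
  refine Summable.tsum_le_tsum_of_inj (fun u : U => (T.b u.1 - T.b c - 1).toNat) ?_ ?_ ?_ hsub
    hgeo.summable
  · intro u u' huu'
    have h2 := u.2.1
    have h3 := u'.2.1
    have hb : T.b u.1 = T.b u'.1 := by
      simp only at huu'
      omega
    exact Subtype.ext (act_unique u.2.2 u'.2.2 hb)
  · intro k _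
    have := hw0 c
    positivity
  · intro u
    have h2 : T.anc u.1 (T.b c) = c := desc_of_act u.2.2 hc u.2.1
    have h3 := w_desc hw hoff (T.b u.1 - T.b c).toNat u.1 h2
    have h4 : (T.b u.1 - T.b c).toNat = (T.b u.1 - T.b c - 1).toNat + 1 := by
      have := u.2.1
      omega
    rw [h4] at h3
    have h5 : w u.1 * zeta T u.1 x ≤ w u.1 :=
      mul_le_of_le_one_right (hw0 _).le (zeta_le_one _ x)
    refine h5.trans (h3.trans (le_of_eq ?_))
    rw [pow_succ, one_div, inv_pow]
    field_simp

theorem exists_of_DD_pos {N : ℤ} {x : T.TH} (h : 0 < DD T w N x) :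
    ∃ u, N ≤ T.b u ∧ E (T.b u - 1) < x.1 u := by
  classical
  by_contra hcon
  push Not at hcon
  have : DD T w N x = 0 := by
    unfold DD
    rw [show (fun v => if Off T v ∧ N ≤ T.b v then w v * zeta T v x else 0) = fun _ => 0 from ?_,
      tsum_zero]
    ext v
    split_ifs with hv
    · have h2 : zeta T v x = 0 := by
        by_contra hne
        have h3 := act_of_zeta_pos (lt_of_le_of_ne (zeta_nonneg v x) (Ne.symm hne))
        have h4 := hcon v hv.2
        linarith
      rw [h2, mul_zero]
    · rfl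
  linarith

theorem main_ineq (hcol : ∀ u v, T.p u = T.p v → col u = col v → u = v)
    (hw0 : ∀ v, 0 < w v) (hws : Summable w)
    {x y : T.TH} {a v : V} (hav : T.p a = v) (ha : Off T a)
    (hx : x.1 v = E (T.b v)) (hy : y.1 v = E (T.b v)) :
    w a * (zeta T a y - zeta T a x) - DD T w (T.b v + 2) x ≤
      ff T col w (col a) y - ff T col w (col a) x := by
  classical
  have hba : T.b v = T.b a - 1 := by rw [← hav, T.b_p]
  let j := col a
  have s1 := ff_summable hw0 hws (fun u => Off T u ∧ col u = j) x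
  have s2 := ff_summable hw0 hws (fun u => Off T u ∧ col u = j) y
  have s3 := ff_summable hw0 hws (fun u => Off T u ∧ T.b v + 2 ≤ T.b u) x
  have s4 : HasSum (fun u => if u = a then w a * (zeta T a y - zeta T a x) else 0)
    (w a * (zeta T a y - zeta T a x)) := hasSum_ite_eq a _
  have hs := ((s2.hasSum.sub s1.hasSum).add s3.hasSum).sub s4
  have h0 : 0 ≤ (ff T col w j y - ff T col w j x) + DD T w (T.b v + 2) x -
      w a * (zeta T a y - zeta T a x) := by
    refine hs.nonneg (fun u => ?_)
    rcases lt_trichotomy (T.b u) (T.b a) with hb | hb | hb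
    · -- below
      have hne : u ≠ a := by rintro rfl; exact lt_irrefl _ hb
      have hzz : zeta T u x = zeta T u y := by
        unfold zeta
        rw [agree_below hx hy (u := u) (by omega)]
      rw [if_neg hne, hzz, if_neg (fun h => by omega : ¬ (Off T u ∧ T.b v + 2 ≤ T.b u))]
      simp
    · -- same level
      rw [if_neg (fun h => by omega : ¬ (Off T u ∧ T.b v + 2 ≤ T.b u))]
      by_cases hne : u = a
      · subst hne
        rw [if_pos rfl, if_pos ⟨ha, rfl⟩, if_pos ⟨ha, rfl⟩]
        apply le_of_eq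
        ring
      · rw [if_neg hne]
        by_cases hc : Off T u ∧ col u = j
        · rw [if_pos hc, if_pos hc]
          have key : ∀ z : T.TH, z.1 v = E (T.b v) → zeta T u z = 0 := by
            intro z hz
            by_contra h
            have h1 := act_of_zeta_pos (lt_of_le_of_ne (zeta_nonneg u z) (Ne.symm h))
            have h2 := act_p h1
            have h3 : T.p u = v := by
              refine act_unique (act_of_full h2) (act_of_full hz) ?_
              rw [T.b_p]; omega
            exact hne (hcol u a (by rw [h3, hav]) hc.2)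
          rw [key x hx, key y hy]
          simp
        · rw [if_neg hc, if_neg hc]
          simp
    · -- above
      have hne : u ≠ a := by rintro rfl; exact lt_irrefl _ hb
      rw [if_neg hne]
      have h1 := mul_nonneg (hw0 u).le (zeta_nonneg u x)
      have h2 := mul_nonneg (hw0 u).le (zeta_nonneg u y)
      by_cases hoff : Off T u
      · rw [if_pos (⟨hoff, by omega⟩ : Off T u ∧ T.b v + 2 ≤ T.b u)]
        by_cases hc : col u = j
        · rw [if_pos ⟨hoff, hc⟩, if_pos ⟨hoff, hc⟩]
          linarith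
        · rw [if_neg (fun h => hc h.2), if_neg (fun h => hc h.2)]
          linarith
      · rw [if_neg (fun h => hoff h.1), if_neg (fun h => hoff h.1), if_neg (fun h => hoff h.1)]
        simp
  have h1 : ff T col w (col a) y - ff T col w (col a) x = ff T col w j y - ff T col w j x := rfl
  rw [h1]
  linarith

/-- the contradiction -/
theorem no_gap (hcol : ∀ u v, T.p u = T.p v → col u = col v → u = v)
    (hw0 : ∀ v, 0 < w v) (hws : Summable w) (hw : ∀ c, Off T c → w c ≤ w (T.p c) / 3)
    {x y : T.TH} (hxy : x.1 T.o = y.1 T.o) (hf : ∀ j, ff T col w j x = ff T col w j y)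
    {a : V} (ha : zeta T a x < zeta T a y) (hp : zeta T (T.p a) x = zeta T (T.p a) y) : False := by
  obtain ⟨v, hv⟩ : ∃ v, v = T.p a := ⟨_, rfl⟩
  rw [← hv] at hp
  have hbv : T.b v = T.b a - 1 := by rw [hv, T.b_p]
  have hact : E (T.b a - 1) < y.1 a := act_of_zeta_pos (lt_of_le_of_lt (zeta_nonneg a x) ha)
  have hyv : y.1 v = E (T.b v) := by rw [hv]; exact act_p hact
  have hxv : x.1 v = E (T.b v) := by
    apply eq_of_zeta_one
    rw [hp]
    exact zeta_eq_one hyv
  have hoff : Off T a := by
    by_contra h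
    exact ne_of_lt ha (zeta_ray hxy h)
  have h1 := main_ineq col hcol hw0 hws hv.symm hoff hxv hyv
  rw [hf, sub_self] at h1
  have hwa := hw0 a
  have h2 : 0 < w a * (zeta T a y - zeta T a x) := mul_pos hwa (sub_pos.2 ha)
  obtain ⟨u, hu1, hu2⟩ := exists_of_DD_pos (lt_of_lt_of_le h2 (by linarith))
  -- the child of `v` through which `x` passes
  obtain ⟨c, hc⟩ : ∃ c, c = T.anc u (T.b v + 1) := ⟨_, rfl⟩
  have hbc : T.b c = T.b v + 1 := by rw [hc]; exact T.b_anc (by omega)
  have hxc : x.1 c = E (T.b c) := by rw [hbc, hc]; exact act_anc hu2 (by omega)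
  have hpc : T.p c = v := by
    have := act_p (act_of_full hxc)
    exact act_unique (act_of_full this) (act_of_full hxv) (by rw [T.b_p]; omega)
  have hca : c ≠ a := by
    rintro rfl
    rw [zeta_eq_one hxc] at ha
    exact absurd (zeta_le_one c y) (not_le.2 ha)
  have hyc : zeta T c y = 0 := by
    by_contra h
    have h3 := act_of_zeta_pos (lt_of_le_of_ne (zeta_nonneg c y) (Ne.symm h))
    exact hca (act_unique h3 hact (by omega))
  have hxa : zeta T a x = 0 := by
    by_contra h
    have h3 := act_of_zeta_pos (lt_of_le_of_ne (zeta_nonneg a x) (Ne.symm h))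
    exact hca (act_unique (act_of_full hxc) h3 (by omega))
  have hcoff : Off T c := by
    by_contra h
    have := zeta_ray hxy h
    rw [zeta_eq_one hxc, hyc] at this
    exact one_ne_zero this
  have h3 := DD_le hw0 hws hw hxc hcoff
  rw [show T.b c + 1 = T.b v + 2 by omega] at h3
  have h4 := main_ineq col hcol hw0 hws hpc hcoff hyv hxv
  rw [hf, sub_self, zeta_eq_one hxc, hyc] at h4
  have hwc := hw0 c
  obtain ⟨u', hu1', hu2'⟩ := exists_of_DD_pos (N := T.b v + 2) (x := y) (w := w)
    (lt_of_lt_of_le hwc (by linarith))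
  obtain ⟨c', hc'⟩ : ∃ c', c' = T.anc u' (T.b v + 1) := ⟨_, rfl⟩
  have hbc' : T.b c' = T.b v + 1 := by rw [hc']; exact T.b_anc (by omega)
  have hyc' : y.1 c' = E (T.b c') := by rw [hbc', hc']; exact act_anc hu2' (by omega)
  have hc'a : c' = a := act_unique (act_of_full hyc') hact (by omega)
  rw [hc'a] at hyc'
  have h5 := DD_le hw0 hws hw hyc' hoff
  rw [show T.b a + 1 = T.b v + 2 by omega] at h5
  rw [hxa, zeta_eq_one hyc'] at h1
  linarith

end Emb

theorem exists_embedding {V : Type} (T : RTree V) {κ : Type} [Fintype κ] (col : V → κ)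
    (hcol : ∀ u v, T.p u = T.p v → col u = col v → u = v) (w : V → ℝ) (hw0 : ∀ v, 0 < w v)
    (hws : Summable w)
    (hw : ∀ c, (∀ n : ℕ, c ≠ T.p^[n] T.o) → w c ≤ w (T.p c) / 3) :
    ∃ (n : ℕ) (i : T.TH → (Fin n → ℝ)), Continuous i ∧ Function.Injective i := by
  classical
  let e := Fintype.equivFin (Option κ)
  refine ⟨Fintype.card (Option κ), fun x k => (e.symm k).elim (x.1 T.o) (fun j => ff T col w j x),
    ?_, ?_⟩
  · refine continuous_pi fun k => ?_
    cases e.symm k with
    | none => exact continuous_coord T.o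
    | some j => exact continuous_ff col hw0 hws j
  · intro x y hxy
    have hk : ∀ k, (e.symm k).elim (x.1 T.o) (fun j => ff T col w j x) =
        (e.symm k).elim (y.1 T.o) (fun j => ff T col w j y) := fun k => congrFun hxy k
    have ho : x.1 T.o = y.1 T.o := by
      have := hk (e none)
      simpa using this
    have hf : ∀ j, ff T col w j x = ff T col w j y := by
      intro j
      have := hk (e (some j))
      simpa using this
    by_contra hne
    have hg : ∃ g, x.1 g ≠ y.1 g := by
      by_contra h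
      push Not at h
      exact hne (Subtype.ext (funext h))
    obtain ⟨g, hg⟩ := hg
    have ha : ∃ a, zeta T a x ≠ zeta T a y := by
      rcases lt_or_gt_of_ne hg with h | h
      · obtain ⟨a, ha⟩ := exists_zeta_lt h
        exact ⟨a, ha.ne⟩
      · obtain ⟨a, ha⟩ := exists_zeta_lt h
        exact ⟨a, ha.ne'⟩
    have hb : ∃ a, zeta T a x ≠ zeta T a y ∧ zeta T (T.p a) x = zeta T (T.p a) y := by
      by_contra hcon
      push Not at hcon
      obtain ⟨a, ha⟩ := ha
      have hit : ∀ k : ℕ, zeta T (T.p^[k] a) x ≠ zeta T (T.p^[k] a) y := by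
        intro k
        induction k with
        | zero => exact ha
        | succ k ih => rw [Function.iterate_succ_apply']; exact hcon _ ih
      obtain ⟨m, n, hmn⟩ := T.dir a T.o
      apply hit m
      apply zeta_ray ho
      intro hoff
      exact hoff n hmn
    obtain ⟨a, ha1, ha2⟩ := hb
    rcases lt_or_gt_of_ne ha1 with h | h
    · exact no_gap col hcol hw0 hws hw ho hf h ha2
    · exact no_gap col hcol hw0 hws hw ho.symm (fun j => (hf j).symm) h ha2.symm

end Pool.Agent.Helper87.FF
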