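import Mathlib
import Pool.Agent.Helper68.BB.RTree

/-! The Cayley tree of a free group, rooted at the end `a₀^{+∞}`. -/

namespace Pool.Agent.Helper87.FF

open Set Pool.Agent.Helper68.BB FreeGroup

section Words

set_option linter.unusedSectionVars false

variable {α : Type} [DecidableEq α]

/-- the inverse letter -/
def ni (s : α × Bool) : α × Bool := (s.1, !s.2)

theorem ni_ni (s : α × Bool) : ni (ni s) = s := by
  simp [ni]

theorem ni_ne (s : α × Bool) : s ≠ ni s := by
  intro h
  have := congrArg Prod.snd h
  simp [ni] at this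

theorem mk_ni (s : α × Bool) : FreeGroup.mk [ni s] = (FreeGroup.mk [s])⁻¹ := by
  simp [FreeGroup.inv_mk, FreeGroup.invRev, ni]

theorem mul_mk_ni (g : FreeGroup α) (s : α × Bool) :
    g * FreeGroup.mk [s] * FreeGroup.mk [ni s] = g := by
  rw [mk_ni, mul_inv_cancel_right]

theorem mul_ni_mk (g : FreeGroup α) (s : α × Bool) :
    g * FreeGroup.mk [ni s] * FreeGroup.mk [s] = g := by
  rw [mk_ni, inv_mul_cancel_right]

theorem isReduced_concat {L : List (α × Bool)} {s : α × Bool} (hL : FreeGroup.IsReduced L)
    (h : ∀ x ∈ L.getLast?, x ≠ ni s) : FreeGroup.IsReduced (L ++ [s]) := by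
  unfold FreeGroup.IsReduced at *
  rw [List.isChain_append]
  refine ⟨hL, List.isChain_singleton _, ?_⟩
  intro x hx y hy
  simp only [List.head?_cons, Option.mem_def, Option.some.injEq] at hy
  subst hy
  intro h1
  by_contra h2
  apply h x hx
  ext
  · exact h1
  · simp only [ni]
    revert h2
    cases x.2 <;> cases s.2 <;> simp

theorem toWord_concat {g : FreeGroup α} {s : α × Bool}
    (h : ∀ x ∈ g.toWord.getLast?, x ≠ ni s) :
    (g * FreeGroup.mk [s]).toWord = g.toWord ++ [s] := by
  have h1 : g * FreeGroup.mk [s] = FreeGroup.mk (g.toWord ++ [s]) := by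
    rw [← FreeGroup.mul_mk, FreeGroup.mk_toWord]
  rw [h1, FreeGroup.toWord_mk]
  exact (isReduced_concat isReduced_toWord h).reduce_eq

theorem toWord_drop {g : FreeGroup α} {L : List (α × Bool)} {s : α × Bool}
    (h : g.toWord = L ++ [s]) : (g * FreeGroup.mk [ni s]).toWord = L := by
  have h1 : g = FreeGroup.mk L * FreeGroup.mk [s] := by
    rw [FreeGroup.mul_mk, ← h, FreeGroup.mk_toWord]
  rw [h1, mul_mk_ni, FreeGroup.toWord_mk]
  apply FreeGroup.IsReduced.reduce_eq
  have h2 : FreeGroup.IsReduced (L ++ [s]) := by rw [← h]; exact isReduced_toWord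
  exact List.IsChain.left_of_append h2

end Words

section Tree

set_option linter.unusedSectionVars false

variable {α : Type} [DecidableEq α] (a0 : α)

/-- on the ray `1, a₀, a₀², …` -/
def OnR (g : FreeGroup α) : Prop := ∀ x ∈ g.toWord, x = (a0, true)

open Classical in
/-- the last step into `g` -/
noncomputable def st (g : FreeGroup α) : α × Bool :=
  if OnR a0 g then (a0, false) else g.toWord.getLastD (a0, false)

/-- the parent -/
noncomputable def pp (g : FreeGroup α) : FreeGroup α := g * FreeGroup.mk [ni (st a0 g)]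

variable {a0}

theorem st_on {g : FreeGroup α} (h : OnR a0 g) : st a0 g = (a0, false) := if_pos h

theorem st_off {g : FreeGroup α} (h : ¬ OnR a0 g) : ∃ L, g.toWord = L ++ [st a0 g] := by
  have h0 : g.toWord ≠ [] := by
    intro h1
    apply h
    intro x hx
    rw [h1] at hx
    simp at hx
  refine ⟨g.toWord.dropLast, ?_⟩
  have h1 : st a0 g = g.toWord.getLast h0 := by
    unfold st
    rw [if_neg h]
    rw [List.getLastD_eq_getLast?, List.getLast?_eq_some_getLast h0]
    rfl
  rw [h1, List.dropLast_append_getLast]

theorem st_of_word {g : FreeGroup α} {L : List (α × Bool)} {s : α × Bool}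
    (h : g.toWord = L ++ [s]) (hoff : ¬ OnR a0 g) : st a0 g = s := by
  obtain ⟨L', hL'⟩ := st_off hoff
  rw [h] at hL'
  exact ((List.append_inj' hL' rfl).2 |> List.singleton_inj.1).symm

theorem on_last {g : FreeGroup α} (h : OnR a0 g) : ∀ x ∈ g.toWord.getLast?, x = (a0, true) := by
  intro x hx
  exact h x (List.mem_of_getLast? hx)

/-- Key lemma: a step not towards the parent leads to a child. -/
theorem st_mul {g : FreeGroup α} {s : α × Bool} (hs : s ≠ ni (st a0 g)) :
    st a0 (g * FreeGroup.mk [s]) = s := by
  by_cases hg : OnR a0 g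
  · rw [st_on hg] at hs
    have hs' : s ≠ (a0, true) := hs
    by_cases hs2 : s = (a0, false)
    · rcases List.eq_nil_or_concat g.toWord with h0 | ⟨L, x, hL⟩
      · have h1 : (g * FreeGroup.mk [s]).toWord = g.toWord ++ [s] :=
          toWord_concat (by rw [h0]; simp)
        apply st_of_word h1
        intro h2
        have := h2 s (by rw [h1]; simp)
        exact hs' this
      · rw [List.concat_eq_append] at hL
        have hx : x = (a0, true) := hg x (by rw [hL]; simp)
        have h1 : (g * FreeGroup.mk [s]).toWord = L := by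
          have := toWord_drop hL
          rw [hx] at this
          rw [hs2]
          exact this
        rw [st_on, hs2]
        intro y hy
        rw [h1] at hy
        exact hg y (by rw [hL]; simp [hy])
    · have h1 : (g * FreeGroup.mk [s]).toWord = g.toWord ++ [s] := by
        apply toWord_concat
        intro x hx
        rw [on_last hg x hx]
        intro h
        apply hs2
        have := congrArg ni h
        rw [ni_ni] at this
        exact this.symm
      apply st_of_word h1
      intro h2
      have := h2 s (by rw [h1]; simp)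
      exact hs' this
  · obtain ⟨L, hL⟩ := st_off hg
    have h1 : (g * FreeGroup.mk [s]).toWord = g.toWord ++ [s] := by
      apply toWord_concat
      intro x hx
      rw [hL, List.getLast?_append] at hx
      simp only [List.getLast?_singleton, Option.some_or, Option.mem_def, Option.some.injEq] at hx
      rw [← hx]
      intro h
      apply hs
      rw [h, ni_ni]
    apply st_of_word h1
    intro h2
    apply hg
    intro x hx
    exact h2 x (by rw [h1]; simp [hx])

theorem pp_mul_st (g : FreeGroup α) : pp a0 g * FreeGroup.mk [st a0 g] = g := mul_ni_mk _ _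

theorem pp_mul {g : FreeGroup α} {s : α × Bool} (hs : s ≠ ni (st a0 g)) :
    pp a0 (g * FreeGroup.mk [s]) = g := by
  unfold pp
  rw [st_mul hs, mul_mk_ni]

theorem pp_key (g : FreeGroup α) (s : α × Bool) :
    pp a0 g = g * FreeGroup.mk [s] ∨ pp a0 (g * FreeGroup.mk [s]) = g := by
  by_cases hs : s = ni (st a0 g)
  · left; rw [hs]; rfl
  · right; exact pp_mul hs

variable (a0) in
/-- the level -/
noncomputable def bb (g : FreeGroup α) : ℤ :=
  (g.toWord.length : ℤ) - 2 * ((g.toWord.takeWhile (fun x => decide (x = (a0, true)))).length : ℤ)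

theorem word_pp_on {g : FreeGroup α} (hg : OnR a0 g) :
    (pp a0 g).toWord = g.toWord ++ [(a0, true)] := by
  unfold pp
  rw [st_on hg]
  apply toWord_concat
  intro x hx
  rw [on_last hg x hx]
  simp [ni]

theorem word_pp_off {g : FreeGroup α} (hg : ¬ OnR a0 g) :
    g.toWord = (pp a0 g).toWord ++ [st a0 g] := by
  obtain ⟨L, hL⟩ := st_off hg
  rw [hL]
  congr 1
  exact (toWord_drop hL).symm

theorem bb_pp (g : FreeGroup α) : bb a0 (pp a0 g) = bb a0 g - 1 := by
  by_cases hg : OnR a0 g
  · have h1 := word_pp_on hg
    have t : ∀ L : List (α × Bool), (∀ x ∈ L, x = (a0, true)) →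
        L.takeWhile (fun x => decide (x = (a0, true))) = L := by
      intro L hL
      rw [List.takeWhile_eq_self_iff]
      intro x hx
      simpa using hL x hx
    unfold bb
    rw [h1, t _ hg, t (g.toWord ++ [(a0, true)]) ?_]
    · simp only [List.length_append, List.length_singleton]
      push_cast
      ring
    · intro x hx
      rw [List.mem_append] at hx
      rcases hx with h | h
      · exact hg x h
      · simpa using h
  · have h1 := word_pp_off hg
    have h2 : (g.toWord.takeWhile (fun x => decide (x = (a0, true)))).length =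
        ((pp a0 g).toWord.takeWhile (fun x => decide (x = (a0, true)))).length := by
      rw [h1, List.takeWhile_append]
      split_ifs with h3
      · have h4 : ∀ x ∈ (pp a0 g).toWord, x = (a0, true) := by
          have h5 : (pp a0 g).toWord.takeWhile (fun x => decide (x = (a0, true))) =
              (pp a0 g).toWord := by
            exact (List.takeWhile_prefix _).eq_of_length h3
          rw [List.takeWhile_eq_self_iff] at h5
          intro x hx
          simpa using h5 x hx
        have h6 : st a0 g ≠ (a0, true) := by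
          intro h7
          apply hg
          intro x hx
          rw [h1, List.mem_append] at hx
          rcases hx with h | h
          · exact h4 x h
          · rw [h7] at h
            simpa using h
        have h8 : [st a0 g].takeWhile (fun x => decide (x = (a0, true))) = [] := by
          simp [h6]
        rw [h8, List.append_nil, h3]
      · rfl
    unfold bb
    rw [h2]
    have h9 : g.toWord.length = (pp a0 g).toWord.length + 1 := by
      conv_lhs => rw [h1]
      simp
    rw [h9]
    push_cast
    ring

theorem on_iff (g : FreeGroup α) (hg : OnR a0 g) : ∃ k : ℕ, g = FreeGroup.of a0 ^ k := by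
  refine ⟨g.toWord.length, ?_⟩
  apply FreeGroup.toWord_injective
  rw [FreeGroup.toWord_of_pow]
  exact List.eq_replicate_of_mem hg

theorem on_pow (k : ℕ) : OnR a0 (FreeGroup.of a0 ^ k) := by
  intro x hx
  rw [FreeGroup.toWord_of_pow] at hx
  exact List.eq_of_mem_replicate hx

theorem pp_pow (k : ℕ) : pp a0 (FreeGroup.of a0 ^ k) = FreeGroup.of a0 ^ (k + 1) := by
  unfold pp
  rw [st_on (on_pow k), pow_succ]
  rfl

theorem pp_iter_pow (j k : ℕ) :
    (pp a0)^[j] (FreeGroup.of a0 ^ k) = FreeGroup.of a0 ^ (k + j) := by
  induction j with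
  | zero => rfl
  | succ j ih => rw [Function.iterate_succ_apply', ih, pp_pow]; rfl

theorem pp_iter_one (j : ℕ) : (pp a0)^[j] 1 = FreeGroup.of a0 ^ j := by
  have := pp_iter_pow (a0 := a0) j 0
  simpa using this

theorem exists_iter_pow (n : ℕ) : ∀ g : FreeGroup α, g.toWord.length = n →
    ∃ m k : ℕ, (pp a0)^[m] g = FreeGroup.of a0 ^ k := by
  induction n with
  | zero =>
    intro g hg
    rw [List.length_eq_zero_iff, FreeGroup.toWord_eq_nil_iff] at hg
    exact ⟨0, 0, by simp [hg]⟩
  | succ n ih =>
    intro g hg
    by_cases h : OnR a0 g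
    · obtain ⟨k, hk⟩ := on_iff g h
      exact ⟨0, k, by simpa using hk⟩
    · have h1 := word_pp_off h
      have h2 : (pp a0 g).toWord.length = n := by
        rw [h1] at hg
        simpa using hg
      obtain ⟨m, k, hmk⟩ := ih _ h2
      exact ⟨m + 1, k, by rw [Function.iterate_succ_apply]; exact hmk⟩

variable [Fintype α]

variable (a0) in
/-- the Cayley tree rooted at the end `a₀^{+∞}` -/
noncomputable def FT : RTree (FreeGroup α) where
  p := pp a0
  b := bb a0
  b_p := bb_pp
  o := 1
  dir := by
    intro v w
    obtain ⟨m, k, h1⟩ := exists_iter_pow (a0 := a0) _ v rfl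
    obtain ⟨n, l, h2⟩ := exists_iter_pow (a0 := a0) _ w rfl
    refine ⟨l + m, k + n, ?_⟩
    rw [Function.iterate_add_apply, h1, Function.iterate_add_apply, h2, pp_iter_pow, pp_iter_pow,
      add_comm]
  fin := by
    intro v
    refine (Set.finite_range (fun s : α × Bool => v * FreeGroup.mk [s])).subset ?_
    rintro c hc
    refine ⟨st a0 c, ?_⟩
    have := pp_mul_st (a0 := a0) c
    rw [show pp a0 c = v from hc] at this
    exact this

variable (a0) in
theorem FT_o : (FT a0).o = 1 := rfl

variable (a0) in
theorem FT_edge (γ v : FreeGroup α) :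
    (FT a0).p (γ * v) = γ * (FT a0).p v ∨ (FT a0).p (γ * (FT a0).p v) = γ * v := by
  have := pp_key (a0 := a0) (γ * v) (ni (st a0 v))
  rw [mul_assoc] at this
  exact this

variable (a0) in
theorem FT_color : ∃ col : FreeGroup α → α × Bool,
    ∀ u v, (FT a0).p u = (FT a0).p v → col u = col v → u = v := by
  refine ⟨st a0, fun u v h1 h2 => ?_⟩
  rw [← pp_mul_st (a0 := a0) u, ← pp_mul_st (a0 := a0) v, h2]
  have : pp a0 u = pp a0 v := h1
  rw [this]

theorem summable_lists (β : Type) [Fintype β] (q : ℝ) (hq0 : 0 ≤ q)
    (hq : q * Fintype.card β < 1) : Summable (fun L : List β => q ^ L.length) := by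
  have e : List β ≃ Σ n, (Fin n → β) := List.equivSigmaTuple
  rw [← List.equivSigmaTuple.symm.summable_iff]
  rw [summable_sigma_of_nonneg]
  · constructor
    · intro n
      exact (hasSum_fintype _).summable
    · have h1 : ∀ n : ℕ, ∑' y : Fin n → β,
          ((fun L : List β => q ^ L.length) ∘ List.equivSigmaTuple.symm) ⟨n, y⟩ =
          (q * Fintype.card β) ^ n := by
        intro n
        rw [tsum_fintype]
        have : ∀ y : Fin n → β, ((fun L : List β => q ^ L.length) ∘
            List.equivSigmaTuple.symm) ⟨n, y⟩ = q ^ n := by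
          intro y
          simp [List.equivSigmaTuple]
        simp only [this]
        rw [Finset.sum_const, Finset.card_univ, Fintype.card_fun, Fintype.card_fin, nsmul_eq_mul,
          mul_pow]
        push_cast
        ring
      simp only [h1]
      exact summable_geometric_of_lt_one (by positivity) hq
  · rintro ⟨n, y⟩
    exact pow_nonneg hq0 _

variable (a0) in
theorem FT_weight : ∃ w : FreeGroup α → ℝ, (∀ v, 0 < w v) ∧ Summable w ∧
    ∀ c, (∀ n : ℕ, c ≠ (FT a0).p^[n] (FT a0).o) → w c ≤ w ((FT a0).p c) / 3 := by
  have hcard : 0 < Fintype.card α := Fintype.card_pos_iff.2 ⟨a0⟩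
  have hcard' : (1 : ℝ) ≤ Fintype.card α := by exact_mod_cast hcard
  let q : ℝ := 1 / (4 * Fintype.card α)
  have hq0 : 0 < q := by positivity
  have hq3 : q ≤ 1 / 3 := by
    apply one_div_le_one_div_of_le <;> linarith
  refine ⟨fun g => q ^ g.toWord.length, fun v => pow_pos hq0 _, ?_, ?_⟩
  · have := summable_lists (α × Bool) q hq0.le (by
      rw [Fintype.card_prod, Fintype.card_bool]
      push_cast
      have : q * (Fintype.card α * 2) = 1 / 2 := by
        simp only [q]
        field_simp
        norm_num
      rw [this]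
      norm_num)
    exact this.comp_injective FreeGroup.toWord_injective
  · intro c hc
    have hoff : ¬ OnR a0 c := by
      intro h
      obtain ⟨k, hk⟩ := on_iff c h
      apply hc k
      rw [hk]
      exact (pp_iter_one k).symm
    have h1 := congrArg List.length (word_pp_off hoff)
    rw [List.length_append, List.length_singleton] at h1
    change q ^ c.toWord.length ≤ q ^ (pp a0 c).toWord.length / 3
    rw [h1, pow_succ]
    have := pow_pos hq0 (pp a0 c).toWord.length
    nlinarith

theorem st_ne (c : FreeGroup α) : st a0 c ≠ ni (st a0 (pp a0 c)) := by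
  intro h
  have h1 := pp_mul_st (a0 := a0) c
  rw [h] at h1
  have h2 : pp a0 (pp a0 c) = c := h1
  have h3 := bb_pp (a0 := a0) (pp a0 c)
  rw [h2, bb_pp] at h3
  omega

variable (a0) in
theorem FT_label (A : Type) [Fintype A] (z : A)
    (hA : Fintype.card A + 1 = 2 * Fintype.card α) :
    ∃ lab : FreeGroup α → A, (∀ v, Set.BijOn lab {c | (FT a0).p c = v} Set.univ) ∧
      ∀ n : ℕ, lab ((FT a0).p^[n] (FT a0).o) = z := by
  classical
  have hψ : ∀ s : α × Bool, ∃ ψ : {t : α × Bool // t ≠ ni s} ≃ A, ψ ⟨s, ni_ne s⟩ = z := by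
    intro s
    have hc : Fintype.card {t : α × Bool // t ≠ ni s} = Fintype.card A := by
      have h1 : Fintype.card {t : α × Bool // t ≠ ni s} = Fintype.card (α × Bool) - 1 := by
        have := Fintype.card_subtype_compl (fun t : α × Bool => t = ni s)
        rw [Fintype.card_subtype_eq] at this
        exact this
      rw [h1, Fintype.card_prod, Fintype.card_bool]
      omega
    let e := Fintype.equivOfCardEq hc
    exact ⟨e.trans (Equiv.swap (e ⟨s, ni_ne s⟩) z), by simp⟩
  choose ψ hψ using hψ
  let Ψ : α × Bool → α × Bool → A := fun s t => if h : t ≠ ni s then ψ s ⟨t, h⟩ else z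
  refine ⟨fun c => Ψ (st a0 (pp a0 c)) (st a0 c), ?_, ?_⟩
  · intro v
    refine ⟨fun _ _ => mem_univ _, ?_, ?_⟩
    · intro c hc c' hc' h
      have h1 : pp a0 c = v := hc
      have h2 : pp a0 c' = v := hc'
      have h3 := st_ne (a0 := a0) c
      have h4 := st_ne (a0 := a0) c'
      change Ψ (st a0 (pp a0 c)) (st a0 c) = Ψ (st a0 (pp a0 c')) (st a0 c') at h
      rw [h1] at h h3
      rw [h2] at h h4
      simp only [Ψ] at h
      rw [dif_pos h3, dif_pos h4] at h
      have h5 := (ψ (st a0 v)).injective h
      have h6 : st a0 c = st a0 c' := congrArg Subtype.val h5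
      rw [← pp_mul_st (a0 := a0) c, ← pp_mul_st (a0 := a0) c', h1, h2, h6]
    · intro a _
      obtain ⟨t, ht⟩ := (ψ (st a0 v)).surjective a
      have h1 := pp_mul (a0 := a0) (g := v) t.2
      have h2 := st_mul (a0 := a0) (g := v) t.2
      refine ⟨v * FreeGroup.mk [t.1], h1, ?_⟩
      change Ψ (st a0 (pp a0 (v * FreeGroup.mk [t.1]))) (st a0 (v * FreeGroup.mk [t.1])) = a
      rw [h1, h2, ← ht]
      simp only [Ψ]
      rw [dif_pos t.2]
  · intro n
    change Ψ (st a0 (pp a0 ((pp a0)^[n] 1))) (st a0 ((pp a0)^[n] 1)) = z
    rw [pp_iter_one, pp_pow, st_on (on_pow _), st_on (on_pow _)]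
    simp only [Ψ]
    rw [dif_pos (ni_ne _)]
    exact hψ _

end Tree

end Pool.Agent.Helper87.FF
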