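import Mathlib

/-! In the free group on `x, y` no positive powers of `[x,y]` and `x[x,y]x⁻¹` commute. -/

namespace Pool.Agent.Helper87.FF

open Matrix

/-- Sanov matrices. -/
def mx : Matrix (Fin 2) (Fin 2) ℤ := !![1, 2; 0, 1]

def mx' : Matrix (Fin 2) (Fin 2) ℤ := !![1, -2; 0, 1]

def my : Matrix (Fin 2) (Fin 2) ℤ := !![1, 0; 2, 1]

def my' : Matrix (Fin 2) (Fin 2) ℤ := !![1, 0; -2, 1]

def mc1 : Matrix (Fin 2) (Fin 2) ℤ := !![21, -8; 8, -3]

def mc2 : Matrix (Fin 2) (Fin 2) ℤ := !![37, -88; 8, -19]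

def ux : (Matrix (Fin 2) (Fin 2) ℤ)ˣ where
  val := mx
  inv := mx'
  val_inv := by
    ext i j
    fin_cases i <;> fin_cases j <;> simp [mx, mx', Matrix.mul_apply, Fin.sum_univ_two]
  inv_val := by
    ext i j
    fin_cases i <;> fin_cases j <;> simp [mx, mx', Matrix.mul_apply, Fin.sum_univ_two]

def uy : (Matrix (Fin 2) (Fin 2) ℤ)ˣ where
  val := my
  inv := my'
  val_inv := by
    ext i j
    fin_cases i <;> fin_cases j <;> simp [my, my', Matrix.mul_apply, Fin.sum_univ_two]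
  inv_val := by
    ext i j
    fin_cases i <;> fin_cases j <;> simp [my, my', Matrix.mul_apply, Fin.sum_univ_two]

theorem mc1_eq : mx * my * mx' * my' = mc1 := by
  ext i j
  fin_cases i <;> fin_cases j <;>
    simp [mx, my, mx', my', mc1, Matrix.mul_apply, Fin.sum_univ_two]

theorem mc2_eq : mx * mc1 * mx' = mc2 := by
  ext i j
  fin_cases i <;> fin_cases j <;>
    simp [mx, mx', mc1, mc2, Matrix.mul_apply, Fin.sum_univ_two]

/-- The Chebyshev-like sequence `p_{n+2} = 18 p_{n+1} - p_n`. -/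
theorem pow_form (M : Matrix (Fin 2) (Fin 2) ℤ) (hM : M * M = (18 : ℤ) • M - 1) (n : ℕ) :
    ∃ p q : ℤ, 0 < p ∧ -p ≤ q ∧ q ≤ 0 ∧ M ^ (n + 1) = p • M + q • (1 : Matrix (Fin 2) (Fin 2) ℤ) := by
  induction n with
  | zero => exact ⟨1, 0, by norm_num, by norm_num, le_rfl, by simp⟩
  | succ n ih =>
    obtain ⟨p, q, hp, hq, hq', h⟩ := ih
    refine ⟨18 * p + q, -p, by linarith, by linarith, by linarith, ?_⟩
    rw [pow_succ, h, add_mul, smul_mul_assoc, hM, smul_mul_assoc, one_mul]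
    module

theorem sc_not_commute (m n : ℕ) (hm : 0 < m) (hn : 0 < n) : ¬ Commute (mc1 ^ m) (mc2 ^ n) := by
  intro h
  have h1 : (mc1 ^ m) * (mc2 ^ n) = (mc2 ^ n) * (mc1 ^ m) := h.eq
  obtain ⟨m, rfl⟩ : ∃ k, m = k + 1 := ⟨m - 1, by omega⟩
  obtain ⟨n, rfl⟩ : ∃ k, n = k + 1 := ⟨n - 1, by omega⟩
  have e1 : mc1 * mc1 = (18 : ℤ) • mc1 - 1 := by
    ext i j
    fin_cases i <;> fin_cases j <;> simp [mc1, Matrix.mul_apply, Fin.sum_univ_two]
  have e2 : mc2 * mc2 = (18 : ℤ) • mc2 - 1 := by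
    ext i j
    fin_cases i <;> fin_cases j <;> simp [mc2, Matrix.mul_apply, Fin.sum_univ_two]
  obtain ⟨p, q, hp, -, -, hpq⟩ := pow_form _ e1 m
  obtain ⟨r, s, hr, -, -, hrs⟩ := pow_form _ e2 n
  rw [hpq, hrs] at h1
  have h1' : (p * r) • (mc1 * mc2) = (p * r) • (mc2 * mc1) := by
    simp only [add_mul, mul_add, smul_mul_assoc, mul_smul_comm, one_mul, mul_one] at h1
    have h2 : ((p * r) • (mc1 * mc2)) + ((q * r) • mc2 + (p * s) • mc1 +
        (q * s) • (1 : Matrix (Fin 2) (Fin 2) ℤ)) =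
        ((p * r) • (mc2 * mc1)) + ((q * r) • mc2 + (p * s) • mc1 +
        (q * s) • (1 : Matrix (Fin 2) (Fin 2) ℤ)) := by
      linear_combination (norm := module) h1
    exact add_right_cancel h2
  have h2 := congrFun (congrFun h1' 1) 0
  rw [Matrix.smul_apply, Matrix.smul_apply] at h2
  simp [mc1, mc2, Matrix.mul_apply, Fin.sum_univ_two] at h2
  omega

/-- The two commutators. -/
def c1 : FreeGroup (Fin 2) :=
  FreeGroup.of 0 * FreeGroup.of 1 * (FreeGroup.of 0)⁻¹ * (FreeGroup.of 1)⁻¹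

def c2 : FreeGroup (Fin 2) :=
  (FreeGroup.of 0) * (FreeGroup.of 0 * FreeGroup.of 1 * (FreeGroup.of 0)⁻¹) *
    (FreeGroup.of 0)⁻¹ * (FreeGroup.of 0 * FreeGroup.of 1 * (FreeGroup.of 0)⁻¹)⁻¹

theorem c_not_commute (m n : ℕ) (hm : 0 < m) (hn : 0 < n) : ¬ Commute (c1 ^ m) (c2 ^ n) := by
  intro h
  let f : FreeGroup (Fin 2) →* (Matrix (Fin 2) (Fin 2) ℤ)ˣ :=
    FreeGroup.lift ![ux, uy]
  have f0 : f (FreeGroup.of 0) = ux := by simp [f]
  have f1 : f (FreeGroup.of 1) = uy := by simp [f]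
  have g1 : f c1 = ux * uy * ux⁻¹ * uy⁻¹ := by
    simp only [c1, map_mul, map_inv, f0, f1]
  have g2 : f c2 = ux * (f c1) * ux⁻¹ := by
    rw [g1]
    simp only [c2, map_mul, map_inv, f0, f1]
    group
  have g1' : (f c1 : Matrix (Fin 2) (Fin 2) ℤ) = mc1 := by
    rw [g1, ← mc1_eq]
    rfl
  have g2' : (f c2 : Matrix (Fin 2) (Fin 2) ℤ) = mc2 := by
    rw [g2, ← mc2_eq, ← g1']
    rfl
  have h2 := (h.map f).map (Units.coeHom (Matrix (Fin 2) (Fin 2) ℤ))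
  rw [map_pow, map_pow, map_pow, map_pow, Units.coeHom_apply, Units.coeHom_apply, g1', g2'] at h2
  exact sc_not_commute m n hm hn h2

end Pool.Agent.Helper87.FF
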