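import Pool.Agent.Helper87.FF.Defs
import Pool.Agent.Helper87.FF.Axis
import Pool.Agent.Helper87.FF.Free

/-! `F₂ × F₂` does not split over a two-ended subgroup. -/

namespace Pool.Agent.Helper87.FF

open SimpleGraph

abbrev F2 : Type := FreeGroup (Fin 2)

/-- Two commuting actions of `F₂` on a tree: if the first one has trivial edge stabilisers and the
second one has edge stabilisers without free subgroups then there is a common fixed vertex. -/
theorem common_fixed {V : Type*} {Y : SimpleGraph V} {G : Type*} [Group G] [MulAction G V]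
    (hT : Y.IsTree)
    (hadj : ∀ (g : G) (v w : V), Y.Adj v w → Y.Adj (g • v) (g • w))
    (hinv : ∀ (g : G) (v w : V), Y.Adj v w → ¬ (g • v = w ∧ g • w = v))
    (α β : F2 →* G) (hcomm : ∀ a b, α a * β b = β b * α a)
    (h1 : ∀ v w, Y.Adj v w → ∀ a, α a • v = v → α a • w = w → a = 1)
    (h2 : ∀ v w, Y.Adj v w → ∀ b b', β b • v = v → β b • w = w → β b' • v = v → β b' • w = w →
      ∃ m n : ℕ, 0 < m ∧ 0 < n ∧ Commute (b ^ m) (b' ^ n)) :
    ∃ v : V, (∀ a, α a • v = v) ∧ (∀ b, β b • v = v) := by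
  by_cases hcase : ∃ a : F2, a ≠ 1 ∧ ∃ v : V, α a • v = v
  · obtain ⟨a, ha, v, hv⟩ := hcase
    have hB : ∀ b, β b • v = v := by
      intro b
      by_contra hne
      have h3 : α a • (β b • v) = β b • v := by
        rw [smul_smul, hcomm, mul_smul, hv]
      obtain ⟨x, hx, hx'⟩ := exists_closer hT hne
      have h4 := fix_closer hadj hT h3 hv hx hx'
      exact ha (h1 x v hx a h4 hv)
    refine ⟨v, ?_, hB⟩
    intro a'
    by_contra hne
    have h3 : ∀ b, β b • (α a' • v) = α a' • v := by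
      intro b
      rw [smul_smul, ← hcomm, mul_smul, hB]
    obtain ⟨x, hx, hx'⟩ := exists_closer hT hne
    have h4 : ∀ b, β b • x = x := fun b => fix_closer hadj hT (h3 b) (hB b) hx hx'
    obtain ⟨m, n, hm, hn, hmn⟩ := h2 x v hx c1 c2 (h4 _) (hB _) (h4 _) (hB _)
    exact c_not_commute m n hm hn hmn
  · push Not at hcase
    exfalso
    have ha : (FreeGroup.of 0 : F2) ≠ 1 := FreeGroup.of_ne_one 0
    obtain ⟨v, w, hvw, h⟩ := commutator_fixes_edge hT hadj hinv (α (FreeGroup.of 0))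
      (hcase _ ha)
    have e1 := h (β (FreeGroup.of 0)) (β (FreeGroup.of 1)) (hcomm _ _) (hcomm _ _)
    have e2 := h (β (FreeGroup.of 0)) (β (FreeGroup.of 0 * FreeGroup.of 1 * (FreeGroup.of 0)⁻¹))
      (hcomm _ _) (hcomm _ _)
    rw [← map_inv, ← map_inv, ← map_mul, ← map_mul, ← map_mul] at e1
    rw [← map_inv, ← map_inv, ← map_mul, ← map_mul, ← map_mul] at e2
    obtain ⟨m, n, hm, hn, hmn⟩ := h2 v w hvw c1 c2 e1.1 e1.2 e2.1 e2.2
    exact c_not_commute m n hm hn hmn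

theorem pow_eq_one_free {a : F2} (n : ℕ) (hn : 0 < n) (h : a ^ n = 1) : a = 1 := by
  have := pow_left_injective (M := F2) hn.ne' (a₁ := a) (a₂ := 1)
  apply this
  simp [h]

theorem zpow_eq_one_free {a : F2} (n : ℤ) (hn : n ≠ 0) (h : a ^ n = 1) : a = 1 := by
  have h1 : a ^ n.natAbs = 1 := by
    rcases Int.natAbs_eq n with h' | h'
    · rw [h', zpow_natCast] at h; exact h
    · rw [h', zpow_neg, inv_eq_one, zpow_natCast] at h; exact h
  exact pow_eq_one_free _ (Int.natAbs_pos.2 hn) h1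

theorem two_ended_pow {C : Type} [Group C] (h : TwoEnded C) :
    ∃ z : C, ∀ c : C, ∃ n : ℕ, 0 < n ∧ ∃ i : ℤ, c ^ n = z ^ i := by
  obtain ⟨z, -, hz⟩ := h
  refine ⟨z, fun c => ?_⟩
  obtain ⟨n, hn, -, hn'⟩ := Subgroup.exists_pow_mem_of_index_ne_zero (H := Subgroup.zpowers z)
    hz.index_ne_zero c
  obtain ⟨i, hi⟩ := Subgroup.mem_zpowers_iff.1 hn'
  exact ⟨n, hn, i, hi.symm⟩

theorem not_splits : ¬ SplitsOverTwoEnded (FreeGroup (Fin 2) × FreeGroup (Fin 2)) := by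
  rintro ⟨V, Y, inst, hT, hadj, hinv, hfix, htrans, hstab⟩
  -- commuting powers
  have hpow : ∀ v w, Y.Adj v w → ∃ z : F2 × F2, ∀ c : F2 × F2, c • v = v → c • w = w →
      ∃ n : ℕ, 0 < n ∧ ∃ i : ℤ, c ^ n = z ^ i := by
    intro v w hvw
    obtain ⟨z, hz⟩ := two_ended_pow (hstab v w hvw)
    refine ⟨z, fun c hc1 hc2 => ?_⟩
    obtain ⟨n, hn, i, hi⟩ := hz ⟨c, hc1, hc2⟩
    refine ⟨n, hn, i, ?_⟩
    have := congrArg Subtype.val hi
    simpa using this
  have hcom : ∀ v w, Y.Adj v w → ∀ c c' : F2 × F2, c • v = v → c • w = w → c' • v = v →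
      c' • w = w → ∃ m n : ℕ, 0 < m ∧ 0 < n ∧ Commute (c ^ m) (c' ^ n) := by
    intro v w hvw c c' hc1 hc2 hc1' hc2'
    obtain ⟨z, hz⟩ := hpow v w hvw
    obtain ⟨m, hm, i, hi⟩ := hz c hc1 hc2
    obtain ⟨n, hn, j, hj⟩ := hz c' hc1' hc2'
    refine ⟨m, n, hm, hn, ?_⟩
    rw [hi, hj]
    exact (Commute.refl z).zpow_zpow i j
  -- there is an edge
  have hedge : ∃ v w, Y.Adj v w := by
    by_contra hno
    push Not at hno
    obtain ⟨v⟩ := hT.connected.nonempty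
    apply hfix
    refine ⟨v, fun g => ?_⟩
    by_contra hne
    obtain ⟨x, hx, -⟩ := exists_closer hT hne
    exact hno _ _ hx
  obtain ⟨v₀, w₀, h₀⟩ := hedge
  let α : F2 →* F2 × F2 := MonoidHom.inl F2 F2
  let β : F2 →* F2 × F2 := MonoidHom.inr F2 F2
  have hαβ : ∀ a b, α a * β b = β b * α a := by
    intro a b
    simp [α, β]
  have hα : ∀ v w, Y.Adj v w → ∀ b b', α b • v = v → α b • w = w → α b' • v = v →
      α b' • w = w → ∃ m n : ℕ, 0 < m ∧ 0 < n ∧ Commute (b ^ m) (b' ^ n) := by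
    intro v w hvw b b' e1 e2 e3 e4
    obtain ⟨m, n, hm, hn, h⟩ := hcom v w hvw _ _ e1 e2 e3 e4
    refine ⟨m, n, hm, hn, ?_⟩
    have := h.map (MonoidHom.fst F2 F2)
    simpa [α] using this
  have hβ : ∀ v w, Y.Adj v w → ∀ b b', β b • v = v → β b • w = w → β b' • v = v →
      β b' • w = w → ∃ m n : ℕ, 0 < m ∧ 0 < n ∧ Commute (b ^ m) (b' ^ n) := by
    intro v w hvw b b' e1 e2 e3 e4
    obtain ⟨m, n, hm, hn, h⟩ := hcom v w hvw _ _ e1 e2 e3 e4
    refine ⟨m, n, hm, hn, ?_⟩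
    have := h.map (MonoidHom.snd F2 F2)
    simpa [β] using this
  -- one of the two factors meets the edge stabiliser trivially
  have hone : (∀ a, α a • v₀ = v₀ → α a • w₀ = w₀ → a = 1) ∨
      (∀ b, β b • v₀ = v₀ → β b • w₀ = w₀ → b = 1) := by
    by_contra hno
    push Not at hno
    obtain ⟨⟨a, ha1, ha2, ha⟩, ⟨b, hb1, hb2, hb⟩⟩ := hno
    obtain ⟨z, hz⟩ := hpow v₀ w₀ h₀
    obtain ⟨m, hm, i, hi⟩ := hz _ ha1 ha2
    obtain ⟨n, hn, j, hj⟩ := hz _ hb1 hb2
    have hj0 : j ≠ 0 := by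
      rintro rfl
      rw [zpow_zero] at hj
      have := congrArg Prod.snd hj
      exact hb (pow_eq_one_free n hn (by simpa [β] using this))
    have h3 : (α a ^ m) ^ j = (β b ^ n) ^ i := by
      rw [hi, hj, ← zpow_mul, ← zpow_mul, mul_comm]
    have h4 := congrArg Prod.fst h3
    have h5 : (a ^ m) ^ j = 1 := by simpa [α, β] using h4
    exact ha (pow_eq_one_free m hm (zpow_eq_one_free j hj0 h5))
  have key : ∀ γ : F2 →* F2 × F2, (∀ (g : F2 × F2) (a : F2), ∃ a', g * γ a * g⁻¹ = γ a' ∧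
      (a' = 1 → a = 1)) →
      (∀ a, γ a • v₀ = v₀ → γ a • w₀ = w₀ → a = 1) →
      ∀ v w, Y.Adj v w → ∀ a, γ a • v = v → γ a • w = w → a = 1 := by
    intro γ hγ h v w hvw a ha1 ha2
    obtain ⟨g, hg⟩ := htrans v w v₀ w₀ hvw h₀
    obtain ⟨a', ha', ha''⟩ := hγ g a
    apply ha''
    rcases hg with ⟨e1, e2⟩ | ⟨e1, e2⟩
    · apply h
      · rw [← ha', ← e1, smul_smul]; simp [mul_smul, ha1]
      · rw [← ha', ← e2, smul_smul]; simp [mul_smul, ha2]
    · apply h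
      · rw [← ha', ← e2, smul_smul]; simp [mul_smul, ha2]
      · rw [← ha', ← e1, smul_smul]; simp [mul_smul, ha1]
  have hfin : ∃ v : V, (∀ a, α a • v = v) ∧ (∀ b, β b • v = v) := by
    rcases hone with h | h
    · refine common_fixed hT hadj hinv α β hαβ (key α ?_ h) hβ
      rintro ⟨g1, g2⟩ a
      refine ⟨g1 * a * g1⁻¹, by simp [α], fun h => ?_⟩
      simpa using h
    · obtain ⟨v, h1, h2⟩ := common_fixed hT hadj hinv β α (fun a b => (hαβ b a).symm)
        (key β (by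
          rintro ⟨g1, g2⟩ a
          refine ⟨g2 * a * g2⁻¹, by simp [β], fun h => ?_⟩
          simpa using h) h) hα
      exact ⟨v, h2, h1⟩
  obtain ⟨v, h1, h2⟩ := hfin
  apply hfix
  refine ⟨v, fun g => ?_⟩
  have : g = α g.1 * β g.2 := by
    obtain ⟨g1, g2⟩ := g
    simp [α, β]
  rw [this, mul_smul, h2, h1]

end Pool.Agent.Helper87.FF
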