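import Pool.Agent.Helper87.FF.Defs

/-! `F₂ × ℤ` splits over a two-ended subgroup: the Bass-Serre tree of `F₂ = ⟨x⟩ * ⟨y⟩`. -/

namespace Pool.Agent.Helper87.FF

open SimpleGraph

/-- The generator of the last letter of the reduced word. -/
def lastGen (h : FreeGroup (Fin 2)) : Option (Fin 2) := (h.toWord.getLast?).map Prod.fst

theorem lastGen_one : lastGen 1 = none := by
  simp [lastGen]

theorem lastGen_ne_none {h : FreeGroup (Fin 2)} (hh : h ≠ 1) : lastGen h ≠ none := by
  simp only [lastGen, ne_eq, Option.map_eq_none_iff, List.getLast?_eq_none_iff,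
    FreeGroup.toWord_eq_nil_iff]
  exact hh

theorem lastGen_step {a b : Fin 2} (hab : a ≠ b) (e : Bool) (h : FreeGroup (Fin 2))
    (hh : lastGen h = some b) : lastGen (FreeGroup.mk [(a, e)] * h) = some b := by
  have h1 : (FreeGroup.mk [(a, e)] * h).toWord = FreeGroup.reduce ((a, e) :: h.toWord) := by
    rw [FreeGroup.toWord_mul, FreeGroup.toWord_mk]
    simp
  unfold lastGen at hh ⊢
  rw [h1, FreeGroup.reduce.cons, FreeGroup.reduce_toWord]
  cases hw : h.toWord with
  | nil =>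
    rw [hw] at hh
    simp at hh
  | cons hd tl =>
    rw [hw] at hh
    simp only
    split_ifs with hc
    · cases tl with
      | nil =>
        exfalso
        simp only [List.getLast?_singleton, Option.map_some, Option.some.injEq] at hh
        exact hab (hc.1.trans hh)
      | cons hd' tl' =>
        rw [List.getLast?_cons_cons] at hh
        exact hh
    · rw [List.getLast?_cons_cons]
      exact hh

theorem lastGen_zpow {a b : Fin 2} (hab : a ≠ b) (k : ℤ) (h : FreeGroup (Fin 2))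
    (hh : lastGen h = some b) : lastGen (FreeGroup.of a ^ k * h) = some b := by
  induction k using Int.induction_on generalizing h with
  | zero => simpa using hh
  | succ n ih =>
    rw [zpow_add, zpow_one, mul_assoc]
    exact ih _ (lastGen_step hab true h hh)
  | pred n ih =>
    rw [zpow_sub, zpow_one, mul_assoc]
    exact ih _ (lastGen_step hab false h hh)

theorem lastGen_zpow_iff {a b : Fin 2} (hab : a ≠ b) (k : ℤ) (h : FreeGroup (Fin 2)) :
    lastGen (FreeGroup.of a ^ k * h) = some b ↔ lastGen h = some b := by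
  refine ⟨fun hh => ?_, lastGen_zpow hab k h⟩
  have := lastGen_zpow hab (-k) _ hh
  rwa [← mul_assoc, ← zpow_add, neg_add_cancel, zpow_zero, one_mul] at this

abbrev Fr : Type := FreeGroup (Fin 2)

abbrev SX : Subgroup Fr := Subgroup.zpowers (FreeGroup.of 0)

abbrev SY : Subgroup Fr := Subgroup.zpowers (FreeGroup.of 1)

abbrev BV : Type := (Fr ⧸ SX) ⊕ (Fr ⧸ SY)

/-- The left and right vertex of `g`. -/
def vl (g : Fr) : BV := Sum.inl (QuotientGroup.mk g)

def vr (g : Fr) : BV := Sum.inr (QuotientGroup.mk g)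

theorem sxy {g : Fr} (h1 : g ∈ SX) (h2 : g ∈ SY) : g = 1 := by
  obtain ⟨i, hi⟩ := Subgroup.mem_zpowers_iff.1 h1
  obtain ⟨j, hj⟩ := Subgroup.mem_zpowers_iff.1 h2
  let f : Fr →* Multiplicative ℤ := FreeGroup.lift ![Multiplicative.ofAdd 1, 1]
  have e1 : f g = Multiplicative.ofAdd i := by
    rw [← hi, map_zpow]
    simp [f, ← ofAdd_zsmul]
  have e2 : f g = 1 := by
    rw [← hj, map_zpow]
    simp [f]
  rw [e2] at e1
  have : i = 0 := by
    have := congrArg Multiplicative.toAdd e1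
    simpa using this.symm
  rw [← hi, this, zpow_zero]

/-- The Bass-Serre graph. -/
def BG : SimpleGraph BV where
  Adj u v := ∃ g : Fr, (u = vl g ∧ v = vr g) ∨ (u = vr g ∧ v = vl g)
  symm := ⟨by
    rintro u v ⟨g, h | h⟩
    · exact ⟨g, Or.inr ⟨h.2, h.1⟩⟩
    · exact ⟨g, Or.inl ⟨h.2, h.1⟩⟩⟩
  loopless := ⟨by
    rintro u ⟨g, ⟨h1, h2⟩ | ⟨h1, h2⟩⟩
    · rw [h1] at h2; simp [vl, vr] at h2
    · rw [h1] at h2; simp [vl, vr] at h2⟩

theorem BG_adj (g : Fr) : BG.Adj (vl g) (vr g) := ⟨g, Or.inl ⟨rfl, rfl⟩⟩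

theorem vl_mul (g : Fr) : vl (g * FreeGroup.of 0) = vl g := by
  unfold vl
  rw [QuotientGroup.mk_mul_of_mem g (Subgroup.mem_zpowers _)]

theorem vr_mul (g : Fr) : vr (g * FreeGroup.of 1) = vr g := by
  unfold vr
  rw [QuotientGroup.mk_mul_of_mem g (Subgroup.mem_zpowers _)]

theorem reach (g : Fr) : ∀ h : Fr, BG.Reachable (vl h) (vl (h * g)) := by
  induction g using FreeGroup.induction_on with
  | C1 => intro h; rw [mul_one]
  | of x =>
    intro h
    fin_cases x
    · change BG.Reachable (vl h) (vl (h * FreeGroup.of 0))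
      rw [vl_mul]
    · change BG.Reachable (vl h) (vl (h * FreeGroup.of 1))
      have h1 : BG.Adj (vl h) (vr h) := BG_adj h
      have h2 : BG.Adj (vl (h * FreeGroup.of 1)) (vr (h * FreeGroup.of 1)) := BG_adj _
      rw [vr_mul] at h2
      exact h1.reachable.trans h2.symm.reachable
  | inv_of x ih =>
    intro h
    have := ih (h * (FreeGroup.of x)⁻¹)
    rw [inv_mul_cancel_right] at this
    exact this.symm
  | mul x y ihx ihy =>
    intro h
    have h1 := ihx h
    have h2 := ihy (h * x)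
    rw [← mul_assoc]
    exact h1.trans h2

theorem BG_connected : BG.Connected := by
  have key : ∀ v : BV, BG.Reachable (vl 1) v := by
    rintro (q | q)
    · induction q using QuotientGroup.induction_on with
      | H g =>
        have := reach g 1
        rwa [one_mul] at this
    · induction q using QuotientGroup.induction_on with
      | H g =>
        have := reach g 1
        rw [one_mul] at this
        exact this.trans (BG_adj g).reachable
  have : Nonempty BV := ⟨vl 1⟩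
  exact ⟨fun u v => (key u).symm.trans (key v)⟩

/-- The side of the edge `g`. -/
def side (g : Fr) : BV → Prop :=
  Sum.elim
    (fun q => Quotient.liftOn' q (fun h => ¬ lastGen ((g⁻¹ * h)⁻¹) = some 1) (by
      intro a b hab
      rw [QuotientGroup.leftRel_apply] at hab
      obtain ⟨k, hk⟩ := Subgroup.mem_zpowers_iff.1 hab
      have : b = a * FreeGroup.of 0 ^ k := by rw [hk]; group
      have e : (g⁻¹ * b)⁻¹ = FreeGroup.of 0 ^ (-k) * (g⁻¹ * a)⁻¹ := by rw [this]; group
      simp only [e]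
      rw [lastGen_zpow_iff (by decide)]))
    (fun q => Quotient.liftOn' q (fun h => lastGen ((g⁻¹ * h)⁻¹) = some 0) (by
      intro a b hab
      rw [QuotientGroup.leftRel_apply] at hab
      obtain ⟨k, hk⟩ := Subgroup.mem_zpowers_iff.1 hab
      have : b = a * FreeGroup.of 1 ^ k := by rw [hk]; group
      have e : (g⁻¹ * b)⁻¹ = FreeGroup.of 1 ^ (-k) * (g⁻¹ * a)⁻¹ := by rw [this]; group
      simp only [e]
      rw [lastGen_zpow_iff (by decide)]))

theorem side_vl (g h : Fr) : side g (vl h) ↔ ¬ lastGen ((g⁻¹ * h)⁻¹) = some 1 := Iff.rfl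

theorem side_vr (g h : Fr) : side g (vr h) ↔ lastGen ((g⁻¹ * h)⁻¹) = some 0 := Iff.rfl

theorem side_edge {g h : Fr} (hgh : h ≠ g) : side g (vl h) ↔ side g (vr h) := by
  rw [side_vl, side_vr]
  have h1 : (g⁻¹ * h)⁻¹ ≠ 1 := by
    intro h1
    apply hgh
    rw [inv_eq_one] at h1
    exact (inv_mul_eq_one.1 h1).symm
  have h2 := lastGen_ne_none h1
  obtain ⟨c, hc⟩ := Option.ne_none_iff_exists'.1 h2
  rw [hc]
  fin_cases c <;> simp

theorem BG_acyclic : BG.IsAcyclic := by
  rw [isAcyclic_iff_forall_adj_isBridge]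
  have key : ∀ g : Fr, ¬ (BG \ fromEdgeSet {s(vl g, vr g)}).Reachable (vl g) (vr g) := by
    rintro g ⟨p⟩
    have inv : ∀ u v : BV, (BG \ fromEdgeSet {s(vl g, vr g)}).Walk u v →
        (side g u ↔ side g v) := by
      intro u v p
      induction p with
      | nil => rfl
      | @cons a b c hadj _ ih =>
        rw [← ih]
        rw [SimpleGraph.sdiff_adj, fromEdgeSet_adj] at hadj
        obtain ⟨⟨h, hh⟩, hne⟩ := hadj
        have hhg : h ≠ g := by
          rintro rfl
          rcases hh with ⟨rfl, rfl⟩ | ⟨rfl, rfl⟩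
          · exact hne ⟨by simp, by simp [vl, vr]⟩
          · exact hne ⟨by simp [Sym2.eq_swap], by simp [vl, vr]⟩
        rcases hh with ⟨rfl, rfl⟩ | ⟨rfl, rfl⟩
        · exact side_edge hhg
        · exact (side_edge hhg).symm
    have h1 := inv _ _ p
    rw [side_vl, side_vr] at h1
    simp [lastGen_one] at h1
  rintro u v ⟨g, ⟨rfl, rfl⟩ | ⟨rfl, rfl⟩⟩
  · rw [isBridge_iff]
    exact key g
  · rw [Sym2.eq_swap, isBridge_iff]
    exact key g

theorem BG_isTree : BG.IsTree := ⟨BG_connected, BG_acyclic⟩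

theorem fg1 (n : FreeGroup (Fin 1)) : ∃ k : ℤ, n = FreeGroup.of 0 ^ k := by
  induction n using FreeGroup.induction_on with
  | C1 => exact ⟨0, by simp⟩
  | of x => exact ⟨1, by rw [zpow_one, Subsingleton.elim x 0]⟩
  | inv_of x ih => exact ⟨-1, by rw [zpow_neg, zpow_one, Subsingleton.elim x 0]⟩
  | mul x y ihx ihy =>
    obtain ⟨i, hi⟩ := ihx
    obtain ⟨j, hj⟩ := ihy
    exact ⟨i + j, by rw [zpow_add, hi, hj]⟩

theorem splits : SplitsOverTwoEnded (FreeGroup (Fin 2) × FreeGroup (Fin 1)) := by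
  let inst : MulAction (FreeGroup (Fin 2) × FreeGroup (Fin 1)) BV :=
    MulAction.compHom BV (MonoidHom.fst (FreeGroup (Fin 2)) (FreeGroup (Fin 1)))
  have svl : ∀ (c : FreeGroup (Fin 2) × FreeGroup (Fin 1)) (g : Fr), c • vl g = vl (c.1 * g) :=
    fun _ _ => rfl
  have svr : ∀ (c : FreeGroup (Fin 2) × FreeGroup (Fin 1)) (g : Fr), c • vr g = vr (c.1 * g) :=
    fun _ _ => rfl
  have evl : ∀ g h : Fr, vl g = vl h → g⁻¹ * h ∈ SX := by
    intro g h e
    exact QuotientGroup.eq.1 (Sum.inl_injective e)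
  have evr : ∀ g h : Fr, vr g = vr h → g⁻¹ * h ∈ SY := by
    intro g h e
    exact QuotientGroup.eq.1 (Sum.inr_injective e)
  refine ⟨BV, BG, inst, BG_isTree, ?_, ?_, ?_, ?_, ?_⟩
  · rintro c u v ⟨g, ⟨rfl, rfl⟩ | ⟨rfl, rfl⟩⟩
    · exact ⟨c.1 * g, Or.inl ⟨svl c g, svr c g⟩⟩
    · exact ⟨c.1 * g, Or.inr ⟨svr c g, svl c g⟩⟩
  · rintro c u v ⟨g, ⟨rfl, rfl⟩ | ⟨rfl, rfl⟩⟩ ⟨h1, h2⟩
    · rw [svl] at h1; simp [vl, vr] at h1
    · rw [svr] at h1; simp [vl, vr] at h1
  · rintro ⟨v, hv⟩
    rcases v with q | q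
    · induction q using QuotientGroup.induction_on with
      | H g =>
        have h1 := hv (g * FreeGroup.of 1 * g⁻¹, 1)
        have h2 := evl _ _ ((svl (g * FreeGroup.of 1 * g⁻¹, 1) g).symm.trans h1)
        have h3 : (FreeGroup.of 1 : Fr)⁻¹ ∈ SX := by
          simpa [mul_assoc] using h2
        have h4 := sxy ((Subgroup.inv_mem_iff _).1 h3) (Subgroup.mem_zpowers _)
        exact FreeGroup.of_ne_one _ h4
    · induction q using QuotientGroup.induction_on with
      | H g =>
        have h1 := hv (g * FreeGroup.of 0 * g⁻¹, 1)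
        have h2 := evr _ _ ((svr (g * FreeGroup.of 0 * g⁻¹, 1) g).symm.trans h1)
        have h3 : (FreeGroup.of 0 : Fr)⁻¹ ∈ SY := by
          simpa [mul_assoc] using h2
        have h4 := sxy (Subgroup.mem_zpowers _) ((Subgroup.inv_mem_iff _).1 h3)
        exact FreeGroup.of_ne_one _ h4
  · rintro u v u' v' ⟨g, hg⟩ ⟨g', hg'⟩
    refine ⟨(g' * g⁻¹, 1), ?_⟩
    have e1 : (g' * g⁻¹, (1 : FreeGroup (Fin 1))) • vl g = vl g' := by
      rw [svl]; simp
    have e2 : (g' * g⁻¹, (1 : FreeGroup (Fin 1))) • vr g = vr g' := by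
      rw [svr]; simp
    rcases hg with ⟨rfl, rfl⟩ | ⟨rfl, rfl⟩ <;> rcases hg' with ⟨rfl, rfl⟩ | ⟨rfl, rfl⟩
    · exact Or.inl ⟨e1, e2⟩
    · exact Or.inr ⟨e1, e2⟩
    · exact Or.inr ⟨e2, e1⟩
    · exact Or.inl ⟨e2, e1⟩
  · intro u v huv
    have hz : ((1 : FreeGroup (Fin 2)), (FreeGroup.of 0 : FreeGroup (Fin 1))) ∈
        (MulAction.stabilizer (FreeGroup (Fin 2) × FreeGroup (Fin 1)) u ⊓
          MulAction.stabilizer (FreeGroup (Fin 2) × FreeGroup (Fin 1)) v) := by
      have e1 : ∀ g : Fr, ((1 : FreeGroup (Fin 2)), (FreeGroup.of 0 : FreeGroup (Fin 1))) • vl g =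
          vl g := fun g => by rw [svl, one_mul]
      have e2 : ∀ g : Fr, ((1 : FreeGroup (Fin 2)), (FreeGroup.of 0 : FreeGroup (Fin 1))) • vr g =
          vr g := fun g => by rw [svr, one_mul]
      obtain ⟨g, ⟨rfl, rfl⟩ | ⟨rfl, rfl⟩⟩ := huv
      · exact ⟨e1 g, e2 g⟩
      · exact ⟨e2 g, e1 g⟩
    have hall : ∀ c ∈ (MulAction.stabilizer (FreeGroup (Fin 2) × FreeGroup (Fin 1)) u ⊓
          MulAction.stabilizer (FreeGroup (Fin 2) × FreeGroup (Fin 1)) v), c.1 = 1 := by
      have key : ∀ (g : Fr) (c : FreeGroup (Fin 2) × FreeGroup (Fin 1)),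
          c • vl g = vl g → c • vr g = vr g → c.1 = 1 := by
        intro g c h1 h2
        have h3 := evl _ _ ((svl c g).symm.trans h1)
        have h4 := evr _ _ ((svr c g).symm.trans h2)
        have h5 := sxy h3 h4
        rw [inv_mul_eq_one] at h5
        simpa using h5
      intro c hc
      obtain ⟨g, ⟨rfl, rfl⟩ | ⟨rfl, rfl⟩⟩ := huv
      · exact key g c hc.1 hc.2
      · exact key g c hc.2 hc.1
    refine ⟨⟨_, hz⟩, ?_, ?_⟩
    · rw [orderOf_eq_zero_iff']
      intro n hn h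
      have h1 := congrArg (fun x => x.1.2) h
      have h2 : (FreeGroup.of 0 : FreeGroup (Fin 1)) ^ n = 1 := by simpa using h1
      have h3 := pow_left_injective (M := FreeGroup (Fin 1)) hn.ne'
        (a₁ := FreeGroup.of 0) (a₂ := 1) (by simp [h2])
      exact FreeGroup.of_ne_one _ h3
    · have htop : Subgroup.zpowers (⟨_, hz⟩ : ↥(MulAction.stabilizer
          (FreeGroup (Fin 2) × FreeGroup (Fin 1)) u ⊓
          MulAction.stabilizer (FreeGroup (Fin 2) × FreeGroup (Fin 1)) v)) = ⊤ := by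
        rw [eq_top_iff]
        rintro ⟨⟨c1, c2⟩, hc⟩ -
        have h1 : c1 = 1 := hall _ hc
        obtain ⟨k, hk⟩ := fg1 c2
        rw [Subgroup.mem_zpowers_iff]
        refine ⟨k, ?_⟩
        apply Subtype.ext
        simp [h1, hk]
      rw [htop]
      infer_instance

end Pool.Agent.Helper87.FF
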