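import Mathlib

/-! Elementary tree geometry in terms of the graph distance, and group actions on trees. -/

namespace Pool.Agent.Helper87.FF

open SimpleGraph

variable {V : Type*} {Y : SimpleGraph V}

/-- The neighbour closer to a given vertex is unique. -/
theorem closer_unique (hT : Y.IsTree) {u x y z : V} (hxy : Y.Adj x y) (hzy : Y.Adj z y)
    (hx : Y.dist u x + 1 = Y.dist u y) (hz : Y.dist u z + 1 = Y.dist u y) : x = z := by
  obtain ⟨p, hp, hp'⟩ := hT.connected.exists_path_of_dist u x
  obtain ⟨q, hq, hq'⟩ := hT.connected.exists_path_of_dist u z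
  have h1 : (p.concat hxy).IsPath := by
    apply Walk.isPath_of_length_eq_dist
    rw [Walk.length_concat, hp', hx]
  have h2 : (q.concat hzy).IsPath := by
    apply Walk.isPath_of_length_eq_dist
    rw [Walk.length_concat, hq', hz]
  have h3 : p.concat hxy = q.concat hzy := (hT.existsUnique_path u y).unique h1 h2
  have h4 := congrArg Walk.penultimate h3
  simpa using h4

/-- There is a closer neighbour. -/
theorem exists_closer (hT : Y.IsTree) {u y : V} (h : u ≠ y) :
    ∃ x, Y.Adj x y ∧ Y.dist u x + 1 = Y.dist u y := by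
  obtain ⟨p, hp, hp'⟩ := hT.connected.exists_path_of_dist y u
  cases p with
  | nil => exact absurd rfl h
  | @cons _ x _ hadj q =>
    refine ⟨x, hadj.symm, ?_⟩
    rw [Walk.length_cons] at hp'
    have h1 : Y.dist x u ≤ q.length := dist_le q
    have h2 : Y.dist y u ≤ Y.dist y x + Y.dist x u := hT.connected.dist_triangle
    have h3 : Y.dist y x = 1 := dist_eq_one_iff_adj.2 hadj
    rw [dist_comm (u := u) (v := x), dist_comm (u := u) (v := y)]
    omega

/-- No backtracking: distances keep increasing. -/
theorem dist_next (hT : Y.IsTree) {u x y z : V} (hxy : Y.Adj x y) (hyz : Y.Adj y z)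
    (hne : x ≠ z) (hx : Y.dist u x + 1 = Y.dist u y) : Y.dist u z = Y.dist u y + 1 := by
  rcases hT.dist_eq_dist_add_one_of_adj u hyz with h | h
  · exact absurd (closer_unique hT hxy hyz.symm hx h.symm) hne
  · exact h

variable {G : Type*} [Group G] [MulAction G V]

theorem dist_smul (hadj : ∀ (g : G) (v w : V), Y.Adj v w → Y.Adj (g • v) (g • w))
    (hT : Y.IsTree) (g : G) (u v : V) : Y.dist (g • u) (g • v) = Y.dist u v := by
  have key : ∀ (g : G) (u v : V), Y.dist (g • u) (g • v) ≤ Y.dist u v := by
    intro g u v
    obtain ⟨p, hp⟩ := hT.connected.exists_walk_length_eq_dist u v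
    let f : Y →g Y := ⟨fun x => g • x, fun {a b} h => hadj g a b h⟩
    have := dist_le (p.map f)
    rw [Walk.length_map, hp] at this
    exact this
  apply le_antisymm (key g u v)
  have := key g⁻¹ (g • u) (g • v)
  simpa using this

/-- If `g` fixes `y` and `u` then it fixes the neighbour of `y` closer to `u`. -/
theorem fix_closer (hadj : ∀ (g : G) (v w : V), Y.Adj v w → Y.Adj (g • v) (g • w))
    (hT : Y.IsTree) {g : G} {u x y : V} (hu : g • u = u) (hy : g • y = y) (hxy : Y.Adj x y)
    (hx : Y.dist u x + 1 = Y.dist u y) : g • x = x := by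
  refine closer_unique hT (u := u) (y := y) ?_ hxy ?_ hx
  · have := hadj g x y hxy
    rwa [hy] at this
  · have := dist_smul hadj hT g u x
    rw [hu] at this
    rw [this, hx]

end Pool.Agent.Helper87.FF
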